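import Mathlib

set_option autoImplicit false

namespace Pool.Agent.R4400

/-- The pairs of distinct teams among `n` teams; the pair `{i, j}` is written with `i < j`. -/
abbrev Pair (n : ℕ) : Type := {x : Fin n × Fin n // x.1 < x.2}

/-- A deterministic tournament on `n` teams: for every pair `i < j` the value is `true` when `i`
beats `j`, and `false` when `j` beats `i`. -/
abbrev Tour (n : ℕ) : Type := Pair n → Bool

/-- `bt D i j`: in the tournament `D`, team `i` beats team `j`. -/
def bt {n : ℕ} (D : Tour n) (i j : Fin n) : Bool :=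
  if h : i < j then D ⟨(i, j), h⟩ else if h : j < i then ! D ⟨(j, i), h⟩ else false

/-- The teams of `R` that remain after `h ∈ R` has played every other team of `R`: every team that
has lost one of these matches is removed.  So `h` stays exactly if it has beaten every other team
of `R`, and another team stays exactly if it has beaten `h`. -/
def surv {n : ℕ} (D : Tour n) (R : Finset (Fin n)) (h : Fin n) : Finset (Fin n) :=
  R.filter (fun j => if j = h then (∀ k ∈ R, k ≠ h → bt D h k = true) else bt D j h = true)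

lemma bt_self {n : ℕ} (D : Tour n) (i : Fin n) : bt D i i = false := by
  unfold bt
  simp

lemma bt_swap {n : ℕ} (D : Tour n) {i j : Fin n} (h : i ≠ j) : bt D j i = ! bt D i j := by
  unfold bt
  rcases lt_or_gt_of_ne h with h1 | h1
  · rw [dif_neg (not_lt.mpr h1.le), dif_pos h1, dif_pos h1]
  · rw [dif_pos h1, dif_neg (not_lt.mpr h1.le), dif_pos h1]
    simp

lemma surv_subset {n : ℕ} (D : Tour n) (R : Finset (Fin n)) (h : Fin n) : surv D R h ⊆ R :=
  Finset.filter_subset _ _

lemma surv_card_lt {n : ℕ} (D : Tour n) (R : Finset (Fin n)) (hR : ¬ R.card ≤ 1) (h : Fin n)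
    (hh : h ∈ R) : (surv D R h).card < R.card := by
  refine Finset.card_lt_card (Finset.ssubset_iff_subset_ne.mpr ⟨surv_subset D R h, ?_⟩)
  intro he
  have h1 : h ∈ surv D R h := by rw [he]; exact hh
  have h2 : ∀ k ∈ R, k ≠ h → bt D h k = true := by
    have h3 := (Finset.mem_filter.mp h1).2
    simpa using h3
  obtain ⟨k, hk, hkh⟩ := Finset.exists_mem_ne (by omega : 1 < R.card) h
  have h4 : k ∈ surv D R h := by rw [he]; exact hk
  have h5 := (Finset.mem_filter.mp h4).2
  rw [if_neg hkh] at h5
  have h6 := h2 k hk hkh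
  rw [bt_swap D hkh, h5] at h6
  simp at h6

/-- Randomized King of the Hill on the tournament `D` with set `R` of remaining teams: the
probability that team `i` is selected.  While more than one team remains, a team `h ∈ R` is
picked uniformly at random and the teams that have lost their match in this round are removed. -/
noncomputable def rk {n : ℕ} (D : Tour n) (R : Finset (Fin n)) (i : Fin n) : ℝ :=
  if _hR : R.card ≤ 1 then (if i ∈ R then 1 else 0)
  else (∑ h ∈ R.attach, rk D (surv D R h.1) i) / R.card
termination_by R.card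
decreasing_by exact surv_card_lt D R _hR h.1 h.2

/-- A probabilistic tournament on `n` teams. -/
structure PTour (n : ℕ) where
  /-- `p i j` is the probability that `i` beats `j` (for `i ≠ j`). -/
  p : Fin n → Fin n → ℝ
  nonneg : ∀ i j, i ≠ j → 0 ≤ p i j
  le_one : ∀ i j, i ≠ j → p i j ≤ 1
  add_eq : ∀ i j, i ≠ j → p i j + p j i = 1

/-- The probability of the outcome `D`; the matches are independent. -/
noncomputable def PTour.prob {n : ℕ} (T : PTour n) (D : Tour n) : ℝ :=
  ∏ x : Pair n, (if D x = true then T.p x.1.1 x.1.2 else T.p x.1.2 x.1.1)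

/-- `r_i(T)` for Randomized King of the Hill. -/
noncomputable def PTour.r {n : ℕ} (T : PTour n) (i : Fin n) : ℝ :=
  ∑ D : Tour n, T.prob D * rk D Finset.univ i

/-- `T` belongs to the class `𝒯^ε`. -/
def PTour.InClass {n : ℕ} (ε : ℝ) (T : PTour n) : Prop :=
  ∀ i j, i ≠ j → 1 / 2 - ε ≤ T.p i j ∧ T.p i j ≤ 1 / 2 + ε

/-- `T'` is `{u,v}`-adjacent to `T`. -/
def PTour.Adjacent {n : ℕ} (u v : Fin n) (T T' : PTour n) : Prop :=
  ∀ i j, i ≠ j → ¬ (i = u ∧ j = v) → ¬ (i = v ∧ j = u) → T'.p i j = T.p i j

/-- The gains of a manipulating pair `u ≠ v` over the class `𝒯^ε`. -/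
def gains (ε : ℝ) : Set ℝ :=
  {g | ∃ n : ℕ, 2 ≤ n ∧ ∃ (T T' : PTour n) (u v : Fin n), u ≠ v ∧ T.InClass ε ∧
    PTour.Adjacent u v T T' ∧ g = T'.r u + T'.r v - T.r u - T.r v}

/-- The manipulability `α₂(𝒯^ε)` of Randomized King of the Hill. -/
noncomputable def alpha (ε : ℝ) : ℝ := sSup (gains ε)

end Pool.Agent.R4400
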