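import Mathlib
import Pool.Agent.R4400.Def

set_option autoImplicit false
set_option linter.unusedSectionVars false

open Finset

namespace Pool.Agent.R4400

variable {n : ℕ}

/-- the teams of `R` that beat `h` -/
def ft (D : Tour n) (R : Finset (Fin n)) (h : Fin n) : Finset (Fin n) :=
  R.filter (fun j => bt D j h = true)

lemma mem_ft {D : Tour n} {R : Finset (Fin n)} {h j : Fin n} :
    j ∈ ft D R h ↔ j ∈ R ∧ bt D j h = true := by
  unfold ft
  simp

lemma ft_subset (D : Tour n) (R : Finset (Fin n)) (h : Fin n) : ft D R h ⊆ R :=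
  Finset.filter_subset _ _

lemma ft_not_mem (D : Tour n) (R : Finset (Fin n)) (h : Fin n) : h ∉ ft D R h := by
  intro hh
  have := (mem_ft.mp hh).2
  rw [bt_self] at this
  simp at this

lemma ft_card_lt (D : Tour n) {R : Finset (Fin n)} {h : Fin n} (hh : h ∈ R) :
    (ft D R h).card < R.card := by
  refine Finset.card_lt_card (Finset.ssubset_iff_subset_ne.mpr ⟨ft_subset D R h, ?_⟩)
  intro he
  exact ft_not_mem D R h (by rw [he]; exact hh)

lemma surv_lose {D : Tour n} {R : Finset (Fin n)} {h : Fin n} (k : Fin n) (hk : k ∈ R)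
    (hb : bt D k h = true) : surv D R h = ft D R h := by
  have hkh : k ≠ h := by
    rintro rfl
    rw [bt_self] at hb
    simp at hb
  unfold surv ft
  refine Finset.filter_congr fun j _ => ?_
  by_cases hj : j = h
  · subst hj
    rw [if_pos rfl, bt_self]
    constructor
    · intro h1
      have := h1 k hk hkh
      rw [bt_swap D hkh, hb] at this
      simp at this
    · intro h1
      simp at h1
  · rw [if_neg hj]

lemma surv_win {D : Tour n} {R : Finset (Fin n)} {h : Fin n} (hh : h ∈ R)
    (hb : ∀ k ∈ R, k ≠ h → bt D h k = true) : surv D R h = {h} := by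
  ext j
  unfold surv
  simp only [Finset.mem_filter, Finset.mem_singleton]
  constructor
  · rintro ⟨h1, h2⟩
    by_contra hj
    rw [if_neg hj] at h2
    have := hb j h1 hj
    rw [bt_swap D hj, h2] at this
    simp at this
  · rintro rfl
    refine ⟨hh, ?_⟩
    rw [if_pos rfl]
    exact hb

lemma rk_small (D : Tour n) (R : Finset (Fin n)) (hR : R.card ≤ 1) (i : Fin n) :
    rk D R i = if i ∈ R then 1 else 0 := by
  rw [rk, dif_pos hR]

lemma rk_rec (D : Tour n) (R : Finset (Fin n)) (i : Fin n) :
    (R.card : ℝ) * rk D R i = ∑ h ∈ R, rk D (surv D R h) i := by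
  by_cases hR : R.card ≤ 1
  · rcases Nat.le_one_iff_eq_zero_or_eq_one.mp hR with h0 | h1
    · rw [Finset.card_eq_zero] at h0
      subst h0
      simp
    · obtain ⟨h, rfl⟩ := Finset.card_eq_one.mp h1
      rw [Finset.sum_singleton, surv_win (Finset.mem_singleton_self h)
        (fun k hk hkh => absurd (Finset.mem_singleton.mp hk) hkh)]
      simp
  · rw [rk, dif_neg hR]
    rw [mul_div_cancel₀]
    · exact Finset.sum_attach R (fun h => rk D (surv D R h) i)
    · have : R.card ≠ 0 := by omega
      exact_mod_cast this

lemma rk_single (D : Tour n) (h : Fin n) : rk D {h} h = 1 := by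
  rw [rk_small D {h} (by simp)]
  simp

lemma rk_not_mem (D : Tour n) (R : Finset (Fin n)) (i : Fin n) (hi : i ∉ R) : rk D R i = 0 := by
  induction hn : R.card using Nat.strong_induction_on generalizing R with
  | _ N ih =>
    by_cases hR : R.card ≤ 1
    · rw [rk_small D R hR, if_neg hi]
    · have h1 := rk_rec D R i
      have h2 : ∑ h ∈ R, rk D (surv D R h) i = 0 := by
        refine Finset.sum_eq_zero fun h hh => ?_
        exact ih _ (by rw [← hn]; exact surv_card_lt D R hR h hh) (surv D R h)
          (fun h3 => hi (surv_subset D R h h3)) rfl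
      rw [h2] at h1
      have h3 : (R.card : ℝ) ≠ 0 := by
        have : R.card ≠ 0 := by omega
        exact_mod_cast this
      exact (mul_eq_zero.mp h1).resolve_left h3

lemma rk_top (D : Tour n) (R : Finset (Fin n)) (i : Fin n) (hi : i ∈ R)
    (hb : ∀ k ∈ R, k ≠ i → bt D i k = true) : rk D R i = 1 := by
  induction hn : R.card using Nat.strong_induction_on generalizing R with
  | _ N ih =>
    by_cases hR : R.card ≤ 1
    · rw [rk_small D R hR, if_pos hi]
    · have h1 := rk_rec D R i
      have h2 : ∑ h ∈ R, rk D (surv D R h) i = ∑ h ∈ R, 1 := by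
        refine Finset.sum_congr rfl fun h hh => ?_
        refine ih _ (by rw [← hn]; exact surv_card_lt D R hR h hh) (surv D R h) ?_ ?_ rfl
        · by_cases hhi : i = h
          · subst hhi
            rw [surv_win hi hb]
            simp
          · have h3 : bt D i h = true := hb h hh (fun h => hhi h.symm)
            rw [surv_lose i hi h3]
            exact mem_ft.mpr ⟨hi, h3⟩
        · intro k hk hki
          exact hb k (surv_subset D R h hk) hki
      rw [h2] at h1
      simp only [Finset.sum_const, nsmul_eq_mul, mul_one] at h1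
      have h3 : (R.card : ℝ) ≠ 0 := by
        have : R.card ≠ 0 := by omega
        exact_mod_cast this
      exact mul_left_cancel₀ h3 (by rw [h1, mul_one])

lemma ft_congr {D D' : Tour n} {R : Finset (Fin n)} {h : Fin n}
    (hD : ∀ j ∈ R, bt D j h = bt D' j h) : ft D R h = ft D' R h := by
  unfold ft
  exact Finset.filter_congr fun j hj => by rw [hD j hj]

lemma surv_congr {D D' : Tour n} {R : Finset (Fin n)} {h : Fin n} (hh : h ∈ R)
    (hD : ∀ i ∈ R, ∀ j ∈ R, bt D i j = bt D' i j) : surv D R h = surv D' R h := by
  unfold surv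
  refine Finset.filter_congr fun j hj => ?_
  by_cases hjh : j = h
  · rw [if_pos hjh, if_pos hjh]
    constructor
    · intro h1 k hk hkh
      rw [← hD h hh k hk]
      exact h1 k hk hkh
    · intro h1 k hk hkh
      rw [hD h hh k hk]
      exact h1 k hk hkh
  · rw [if_neg hjh, if_neg hjh, hD j hj h hh]

lemma rk_congr {D D' : Tour n} (R : Finset (Fin n)) (i : Fin n)
    (hD : ∀ i ∈ R, ∀ j ∈ R, bt D i j = bt D' i j) : rk D R i = rk D' R i := by
  induction hn : R.card using Nat.strong_induction_on generalizing R with
  | _ N ih =>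
    by_cases hR : R.card ≤ 1
    · rw [rk_small D R hR, rk_small D' R hR]
    · have h1 := rk_rec D R i
      have h1' := rk_rec D' R i
      have h2 : ∑ h ∈ R, rk D (surv D R h) i = ∑ h ∈ R, rk D' (surv D' R h) i := by
        refine Finset.sum_congr rfl fun h hh => ?_
        rw [← surv_congr hh hD]
        exact ih _ (by rw [← hn]; exact surv_card_lt D R hR h hh) (surv D R h)
          (fun a ha b hb => hD a (surv_subset D R h ha) b (surv_subset D R h hb)) rfl
      rw [h2, ← h1'] at h1
      have h3 : (R.card : ℝ) ≠ 0 := by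
        have : R.card ≠ 0 := by omega
        exact_mod_cast this
      exact mul_left_cancel₀ h3 h1

/-- probability that `u` wins when `u` beats `H` and loses to `L` -/
noncomputable def qd (D : Tour n) (H L : Finset (Fin n)) : ℝ :=
  if L = ∅ then 1 else (∑ h ∈ H.attach, qd D (ft D H h.1) (ft D L h.1)) / (1 + H.card + L.card)
termination_by H.card
decreasing_by exact ft_card_lt D h.2

lemma qd_empty (D : Tour n) (H : Finset (Fin n)) : qd D H ∅ = 1 := by
  rw [qd, if_pos rfl]

lemma qd_rec (D : Tour n) (H L : Finset (Fin n)) (hL : L ≠ ∅) :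
    (1 + H.card + L.card : ℝ) * qd D H L = ∑ h ∈ H, qd D (ft D H h) (ft D L h) := by
  rw [qd, if_neg hL, mul_div_cancel₀]
  · exact Finset.sum_attach H (fun h => qd D (ft D H h) (ft D L h))
  · positivity

lemma qd_congr {D D' : Tour n} (H L : Finset (Fin n))
    (hD : ∀ i ∈ H ∪ L, ∀ j ∈ H ∪ L, bt D i j = bt D' i j) : qd D H L = qd D' H L := by
  induction hn : H.card using Nat.strong_induction_on generalizing H L with
  | _ N ih =>
    by_cases hL : L = ∅
    · subst hL
      rw [qd_empty, qd_empty]
    · have h1 := qd_rec D H L hL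
      have h1' := qd_rec D' H L hL
      have h2 : ∑ h ∈ H, qd D (ft D H h) (ft D L h) = ∑ h ∈ H, qd D' (ft D' H h) (ft D' L h) := by
        refine Finset.sum_congr rfl fun h hh => ?_
        have hh' : h ∈ H ∪ L := Finset.mem_union_left _ hh
        rw [← ft_congr (D := D) (D' := D') (R := H) (h := h)
          (fun j hj => hD j (Finset.mem_union_left _ hj) h hh'),
          ← ft_congr (D := D) (D' := D') (R := L) (h := h)
          (fun j hj => hD j (Finset.mem_union_right _ hj) h hh')]
        refine ih _ (by rw [← hn]; exact ft_card_lt D hh) _ _ ?_ rfl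
        intro a ha b hb
        exact hD a (Finset.union_subset_union (ft_subset D H h) (ft_subset D L h) ha) b
          (Finset.union_subset_union (ft_subset D H h) (ft_subset D L h) hb)
      rw [h2, ← h1'] at h1
      have h3 : (1 + H.card + L.card : ℝ) ≠ 0 := by positivity
      exact mul_left_cancel₀ h3 h1

lemma qd_nonneg (D : Tour n) (H L : Finset (Fin n)) : 0 ≤ qd D H L := by
  induction hn : H.card using Nat.strong_induction_on generalizing H L with
  | _ N ih =>
    by_cases hL : L = ∅
    · subst hL
      rw [qd_empty]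
      norm_num
    · have h1 := qd_rec D H L hL
      have h2 : 0 ≤ ∑ h ∈ H, qd D (ft D H h) (ft D L h) :=
        Finset.sum_nonneg fun h hh => ih _ (by rw [← hn]; exact ft_card_lt D hh) _ _ rfl
      rw [← h1] at h2
      have h3 : (0 : ℝ) < 1 + H.card + L.card := by positivity
      exact nonneg_of_mul_nonneg_right h2 h3

lemma qd_le_one (D : Tour n) (H L : Finset (Fin n)) : qd D H L ≤ 1 := by
  induction hn : H.card using Nat.strong_induction_on generalizing H L with
  | _ N ih =>
    by_cases hL : L = ∅
    · subst hL
      rw [qd_empty]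
    · have h1 := qd_rec D H L hL
      have h2 : ∑ h ∈ H, qd D (ft D H h) (ft D L h) ≤ ∑ h ∈ H, (1 : ℝ) :=
        Finset.sum_le_sum fun h hh => ih _ (by rw [← hn]; exact ft_card_lt D hh) _ _ rfl
      rw [← h1] at h2
      simp only [Finset.sum_const, nsmul_eq_mul, mul_one] at h2
      have h3 : (0 : ℝ) ≤ L.card := by positivity
      have h4 : (0 : ℝ) ≤ H.card := by positivity
      by_contra h5
      push Not at h5
      nlinarith

lemma qd_le (D : Tour n) (H L : Finset (Fin n)) (hL : L ≠ ∅) :
    qd D H L ≤ H.card / (1 + H.card + L.card) := by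
  have h1 := qd_rec D H L hL
  have h2 : ∑ h ∈ H, qd D (ft D H h) (ft D L h) ≤ ∑ h ∈ H, (1 : ℝ) :=
    Finset.sum_le_sum fun h hh => qd_le_one _ _ _
  rw [← h1] at h2
  simp only [Finset.sum_const, nsmul_eq_mul, mul_one] at h2
  rw [le_div_iff₀ (by positivity)]
  linarith

lemma qd_empty_left (D : Tour n) (L : Finset (Fin n)) (hL : L ≠ ∅) : qd D ∅ L = 0 := by
  have h1 := qd_rec D ∅ L hL
  rw [Finset.sum_empty] at h1
  have h3 : (1 + (∅ : Finset (Fin n)).card + L.card : ℝ) ≠ 0 := by positivity
  exact (mul_eq_zero.mp h1).resolve_left h3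

lemma bt_ne {D : Tour n} {i j : Fin n} (h : bt D i j = true) : i ≠ j := by
  rintro rfl
  rw [bt_self] at h
  simp at h

lemma bt_asymm {D : Tour n} {i j : Fin n} (h : bt D i j = true) : bt D j i = false := by
  rw [bt_swap D (bt_ne h), h]
  rfl

lemma ft_insert_pos {D : Tour n} {R : Finset (Fin n)} {h u : Fin n} (hb : bt D u h = true) :
    ft D (insert u R) h = insert u (ft D R h) := by
  unfold ft
  rw [Finset.filter_insert, if_pos hb]

lemma ft_insert_neg {D : Tour n} {R : Finset (Fin n)} {h u : Fin n} (hb : ¬ bt D u h = true) :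
    ft D (insert u R) h = ft D R h := by
  unfold ft
  rw [Finset.filter_insert, if_neg hb]

lemma ft_union (D : Tour n) (R S : Finset (Fin n)) (h : Fin n) :
    ft D (R ∪ S) h = ft D R h ∪ ft D S h := by
  unfold ft
  rw [Finset.filter_union]

/-- the basic reduction from `rk` to `qd` -/
lemma rk_eq_qd (D : Tour n) (u : Fin n) (H L : Finset (Fin n)) (hH : ∀ h ∈ H, bt D u h = true)
    (hL : ∀ l ∈ L, bt D l u = true) : rk D (insert u (H ∪ L)) u = qd D H L := by
  induction hn : H.card using Nat.strong_induction_on generalizing H L with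
  | _ N ih =>
    by_cases hL0 : L = ∅
    · subst hL0
      rw [qd_empty]
      refine rk_top D _ u (Finset.mem_insert_self _ _) ?_
      intro k hk hku
      rcases Finset.mem_insert.mp hk with h | h
      · exact absurd h hku
      · rw [Finset.union_empty] at h
        exact hH k h
    · obtain ⟨l0, hl0⟩ := Finset.nonempty_iff_ne_empty.mpr hL0
      have huH : u ∉ H := by
        intro h
        exact bt_ne (hH u h) rfl
      have huL : u ∉ L := by
        intro h
        exact bt_ne (hL u h) rfl
      have hdis : Disjoint H L := by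
        rw [Finset.disjoint_left]
        intro x h1 h2
        have := bt_asymm (hH x h1)
        rw [hL x h2] at this
        simp at this
      have hcard : ((insert u (H ∪ L)).card : ℝ) = 1 + H.card + L.card := by
        rw [Finset.card_insert_of_notMem (by simp [huH, huL]), Finset.card_union_of_disjoint hdis]
        push_cast
        ring
      have h1 := rk_rec D (insert u (H ∪ L)) u
      rw [hcard, Finset.sum_insert (by simp [huH, huL]), Finset.sum_union hdis] at h1
      have e1 : rk D (surv D (insert u (H ∪ L)) u) u = 0 := by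
        refine rk_not_mem D _ u ?_
        rw [surv_lose l0 (by simp [hl0]) (hL l0 hl0)]
        exact ft_not_mem D _ u
      have e3 : ∑ h ∈ L, rk D (surv D (insert u (H ∪ L)) h) u = 0 := by
        refine Finset.sum_eq_zero fun l hl => ?_
        refine rk_not_mem D _ u ?_
        intro h2
        unfold surv at h2
        have h3 := (Finset.mem_filter.mp h2).2
        have h4 : u ≠ l := (bt_ne (hL l hl)).symm
        rw [if_neg h4, bt_asymm (hL l hl)] at h3
        simp at h3
      have e2 : ∑ h ∈ H, rk D (surv D (insert u (H ∪ L)) h) u =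
          ∑ h ∈ H, qd D (ft D H h) (ft D L h) := by
        refine Finset.sum_congr rfl fun h hh => ?_
        rw [surv_lose u (Finset.mem_insert_self _ _) (hH h hh), ft_insert_pos (hH h hh), ft_union]
        refine ih _ (by rw [← hn]; exact ft_card_lt D hh) _ _ ?_ ?_ rfl
        · intro x hx
          exact hH x (ft_subset D H h hx)
        · intro x hx
          exact hL x (ft_subset D L h hx)
      rw [e1, e2, e3, zero_add, add_zero, ← qd_rec D H L hL0] at h1
      have h3 : (1 + H.card + L.card : ℝ) ≠ 0 := by positivity
      exact mul_left_cancel₀ h3 h1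

end Pool.Agent.R4400
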