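import Mathlib
import Pool.Agent.R4400.Rk

set_option autoImplicit false
set_option linter.unusedSectionVars false

open Finset

namespace Pool.Agent.R4400

variable {n : ℕ}

/-- teams of `S` that `u` beats and `v` does not -/
def W (D : Tour n) (u v : Fin n) (S : Finset (Fin n)) : Finset (Fin n) :=
  S.filter (fun w => bt D u w = true ∧ bt D v w = false)

/-- teams of `S` that neither `u` nor `v` beats -/
def Z (D : Tour n) (u v : Fin n) (S : Finset (Fin n)) : Finset (Fin n) :=
  S.filter (fun w => bt D u w = false ∧ bt D v w = false)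

noncomputable def X (D : Tour n) (u v : Fin n) (S : Finset (Fin n)) : ℝ :=
  qd D (W D u v S) (Z D u v S)

/-- indicator that `u` beats all of `S` -/
noncomputable def pr (D : Tour n) (u : Fin n) (S : Finset (Fin n)) : ℝ :=
  ∏ w ∈ S, (if bt D u w = true then 1 else 0)

lemma pr_one {D : Tour n} {u : Fin n} {S : Finset (Fin n)} (h : ∀ w ∈ S, bt D u w = true) :
    pr D u S = 1 := by
  unfold pr
  exact Finset.prod_eq_one fun w hw => by rw [if_pos (h w hw)]

lemma pr_zero {D : Tour n} {u : Fin n} {S : Finset (Fin n)} (w : Fin n) (hw : w ∈ S)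
    (h : bt D u w = false) : pr D u S = 0 := by
  unfold pr
  refine Finset.prod_eq_zero hw ?_
  rw [h]
  simp

noncomputable def dd (D : Tour n) (u v : Fin n) (S : Finset (Fin n)) : ℝ :=
  (X D u v S - X D v u S + pr D u S - pr D v S +
    ∑ w ∈ S.attach, (if bt D u w.1 = true ∧ bt D v w.1 = true then dd D u v (ft D S w.1) else 0)) /
    (S.card + 2)
termination_by S.card
decreasing_by exact ft_card_lt D w.2

lemma dd_rec (D : Tour n) (u v : Fin n) (S : Finset (Fin n)) :
    (S.card + 2 : ℝ) * dd D u v S = X D u v S - X D v u S + pr D u S - pr D v S +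
      ∑ w ∈ S, (if bt D u w = true ∧ bt D v w = true then dd D u v (ft D S w) else 0) := by
  rw [dd, mul_div_cancel₀]
  · congr 1
    exact Finset.sum_attach S
      (fun w => (if bt D u w = true ∧ bt D v w = true then dd D u v (ft D S w) else 0))
  · positivity

lemma Z_swap (D : Tour n) (u v : Fin n) (S : Finset (Fin n)) : Z D v u S = Z D u v S := by
  unfold Z
  exact Finset.filter_congr fun w _ => by tauto

lemma dd_swap (D : Tour n) (u v : Fin n) (S : Finset (Fin n)) : dd D v u S = - dd D u v S := by
  induction hn : S.card using Nat.strong_induction_on generalizing S with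
  | _ N ih =>
    have h1 := dd_rec D v u S
    have h2 := dd_rec D u v S
    have h3 : ∑ w ∈ S, (if bt D v w = true ∧ bt D u w = true then dd D v u (ft D S w) else 0) =
        - ∑ w ∈ S, (if bt D u w = true ∧ bt D v w = true then dd D u v (ft D S w) else 0) := by
      rw [← Finset.sum_neg_distrib]
      refine Finset.sum_congr rfl fun w hw => ?_
      by_cases h : bt D u w = true ∧ bt D v w = true
      · rw [if_pos h, if_pos ⟨h.2, h.1⟩]
        exact ih _ (by rw [← hn]; exact ft_card_lt D hw) _ rfl
      · rw [if_neg h, if_neg (fun h' => h ⟨h'.2, h'.1⟩), neg_zero]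
    rw [h3] at h1
    have h4 : (S.card + 2 : ℝ) ≠ 0 := by positivity
    refine mul_left_cancel₀ h4 ?_
    rw [h1, mul_neg, h2]
    ring

lemma W_congr {D D' : Tour n} {u v : Fin n} {S : Finset (Fin n)}
    (hu : ∀ w ∈ S, bt D u w = bt D' u w) (hv : ∀ w ∈ S, bt D v w = bt D' v w) :
    W D u v S = W D' u v S := by
  unfold W
  exact Finset.filter_congr fun w hw => by rw [hu w hw, hv w hw]

lemma Z_congr {D D' : Tour n} {u v : Fin n} {S : Finset (Fin n)}
    (hu : ∀ w ∈ S, bt D u w = bt D' u w) (hv : ∀ w ∈ S, bt D v w = bt D' v w) :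
    Z D u v S = Z D' u v S := by
  unfold Z
  exact Finset.filter_congr fun w hw => by rw [hu w hw, hv w hw]

lemma WZ_subset (D : Tour n) (u v : Fin n) (S : Finset (Fin n)) : W D u v S ∪ Z D u v S ⊆ S :=
  Finset.union_subset (Finset.filter_subset _ _) (Finset.filter_subset _ _)

lemma X_congr {D D' : Tour n} {u v : Fin n} {S : Finset (Fin n)}
    (hu : ∀ w ∈ S, bt D u w = bt D' u w) (hv : ∀ w ∈ S, bt D v w = bt D' v w)
    (hS : ∀ i ∈ S, ∀ j ∈ S, bt D i j = bt D' i j) : X D u v S = X D' u v S := by
  unfold X
  rw [← W_congr hu hv, ← Z_congr hu hv]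
  exact qd_congr _ _ fun i hi j hj => hS i (WZ_subset D u v S hi) j (WZ_subset D u v S hj)

lemma pr_congr {D D' : Tour n} {u : Fin n} {S : Finset (Fin n)}
    (hu : ∀ w ∈ S, bt D u w = bt D' u w) : pr D u S = pr D' u S := by
  unfold pr
  exact Finset.prod_congr rfl fun w hw => by rw [hu w hw]

lemma dd_congr {D D' : Tour n} {u v : Fin n} (S : Finset (Fin n))
    (hu : ∀ w ∈ S, bt D u w = bt D' u w) (hv : ∀ w ∈ S, bt D v w = bt D' v w)
    (hS : ∀ i ∈ S, ∀ j ∈ S, bt D i j = bt D' i j) : dd D u v S = dd D' u v S := by
  induction hn : S.card using Nat.strong_induction_on generalizing S with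
  | _ N ih =>
    have h1 := dd_rec D u v S
    have h2 := dd_rec D' u v S
    have h3 : ∑ w ∈ S, (if bt D u w = true ∧ bt D v w = true then dd D u v (ft D S w) else 0) =
        ∑ w ∈ S, (if bt D' u w = true ∧ bt D' v w = true then dd D' u v (ft D' S w) else 0) := by
      refine Finset.sum_congr rfl fun w hw => ?_
      rw [hu w hw, hv w hw]
      by_cases h : bt D' u w = true ∧ bt D' v w = true
      · rw [if_pos h, if_pos h]
        rw [← ft_congr (D := D) (D' := D') (R := S) (h := w) (fun j hj => hS j hj w hw)]
        refine ih _ (by rw [← hn]; exact ft_card_lt D hw) _ ?_ ?_ ?_ rfl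
        · exact fun x hx => hu x (ft_subset _ _ _ hx)
        · exact fun x hx => hv x (ft_subset _ _ _ hx)
        · exact fun x hx y hy => hS x (ft_subset _ _ _ hx) y (ft_subset _ _ _ hy)
      · rw [if_neg h, if_neg h]
    rw [X_congr hu hv hS, X_congr hv hu hS, pr_congr hu, pr_congr hv, h3, ← h2] at h1
    have h4 : (S.card + 2 : ℝ) ≠ 0 := by positivity
    exact mul_left_cancel₀ h4 h1

lemma side1 (D : Tour n) (u v : Fin n) (huv : bt D u v = true) (S : Finset (Fin n))
    (hu : u ∉ S) :
    rk D (surv D (insert u (insert v S)) u) u + rk D (surv D (insert u (insert v S)) u) v =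
      pr D u S := by
  have hne : u ≠ v := bt_ne huv
  by_cases hall : ∀ w ∈ S, bt D u w = true
  · rw [pr_one hall]
    rw [surv_win (Finset.mem_insert_self _ _)]
    · rw [rk_single, rk_not_mem D {u} v (by simp [hne.symm]), add_zero]
    · intro k hk hku
      rcases Finset.mem_insert.mp hk with h | h
      · exact absurd h hku
      · rcases Finset.mem_insert.mp h with h | h
        · subst h
          exact huv
        · exact hall k h
  · push Not at hall
    obtain ⟨w, hw, hb⟩ := hall
    have hb' : bt D u w = false := by simpa using hb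
    have huw : u ≠ w := by
      rintro rfl
      exact hu hw
    rw [pr_zero w hw hb']
    have hb2 : bt D w u = true := by
      rw [bt_swap D huw, hb']
      rfl
    rw [surv_lose w (by simp [hw]) hb2]
    rw [rk_not_mem D _ u (ft_not_mem D _ u), rk_not_mem D _ v, add_zero]
    intro h
    have := (mem_ft.mp h).2
    rw [bt_asymm huv] at this
    simp at this

lemma side2 (D : Tour n) (u v : Fin n) (huv : bt D u v = true) (S : Finset (Fin n))
    (hu : u ∉ S) (hv : v ∉ S) :
    rk D (surv D (insert u (insert v S)) v) u + rk D (surv D (insert u (insert v S)) v) v =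
      X D u v S := by
  have hne : u ≠ v := bt_ne huv
  rw [surv_lose u (Finset.mem_insert_self _ _) huv, rk_not_mem D _ v (ft_not_mem D _ v), add_zero,
    ft_insert_pos huv, ft_insert_neg (by rw [bt_self]; simp)]
  have h1 : ft D S v = W D u v S ∪ Z D u v S := by
    ext w
    rw [mem_ft]
    unfold W Z
    simp only [Finset.mem_union, Finset.mem_filter]
    constructor
    · rintro ⟨h1, h2⟩
      have h3 := bt_asymm h2
      cases h4 : bt D u w
      · exact Or.inr ⟨h1, rfl, h3⟩
      · exact Or.inl ⟨h1, rfl, h3⟩
    · intro h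
      have h1 : w ∈ S ∧ bt D v w = false := by tauto
      refine ⟨h1.1, ?_⟩
      have hvw : v ≠ w := by
        rintro rfl
        exact hv h1.1
      rw [bt_swap D hvw, h1.2]
      rfl
  rw [h1]
  unfold X
  refine rk_eq_qd D u _ _ ?_ ?_
  · intro h hh
    exact ((Finset.mem_filter.mp hh).2).1
  · intro l hl
    have h2 := Finset.mem_filter.mp hl
    have hul : u ≠ l := by
      rintro rfl
      exact hu h2.1
    rw [bt_swap D hul, h2.2.1]
    rfl

lemma dd_spec (D1 D2 : Tour n) (u v : Fin n) (h1 : bt D1 u v = true) (h2 : bt D2 v u = true)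
    (hag : ∀ i j, ¬ (i = u ∧ j = v) → ¬ (i = v ∧ j = u) → bt D1 i j = bt D2 i j)
    (S : Finset (Fin n)) (hu : u ∉ S) (hv : v ∉ S) :
    rk D1 (insert u (insert v S)) u + rk D1 (insert u (insert v S)) v -
      rk D2 (insert u (insert v S)) u - rk D2 (insert u (insert v S)) v = dd D1 u v S := by
  have hne : u ≠ v := bt_ne h1
  induction hn : S.card using Nat.strong_induction_on generalizing S with
  | _ N ih =>
    have hag' : ∀ i j, ¬ (i = u ∧ j = v) → ¬ (i = v ∧ j = u) → bt D2 i j = bt D1 i j :=
      fun i j a b => (hag i j a b).symm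
    have hcard : ((insert u (insert v S)).card : ℝ) = S.card + 2 := by
      rw [Finset.card_insert_of_notMem (by simp [hne, hu]), Finset.card_insert_of_notMem hv]
      push_cast
      ring
    have a1 := rk_rec D1 (insert u (insert v S)) u
    have a2 := rk_rec D1 (insert u (insert v S)) v
    have a3 := rk_rec D2 (insert u (insert v S)) u
    have a4 := rk_rec D2 (insert u (insert v S)) v
    have huR : u ∉ insert v S := by simp [hne, hu]
    rw [hcard, Finset.sum_insert huR, Finset.sum_insert hv] at a1 a2 a3 a4
    have b1 := side1 D1 u v h1 S hu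
    have b2 := side2 D1 u v h1 S hu hv
    have b3 := side1 D2 v u h2 S hv
    have b4 := side2 D2 v u h2 S hv hu
    rw [Finset.insert_comm v u S] at b3 b4
    have hSu : ∀ w ∈ S, w ≠ u := by
      rintro w hw rfl
      exact hu hw
    have hSv : ∀ w ∈ S, w ≠ v := by
      rintro w hw rfl
      exact hv hw
    have c1 : pr D2 v S = pr D1 v S := by
      refine pr_congr fun w hw => hag' v w ?_ ?_
      · rintro ⟨h, _⟩
        exact hne h.symm
      · rintro ⟨_, h⟩
        exact hSu w hw h
    have c2 : X D2 v u S = X D1 v u S := by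
      refine X_congr (fun w hw => hag' v w ?_ ?_) (fun w hw => hag' u w ?_ ?_)
        (fun i hi j hj => hag' i j ?_ ?_)
      · rintro ⟨h, _⟩
        exact hne h.symm
      · rintro ⟨_, h⟩
        exact hSu w hw h
      · rintro ⟨_, h⟩
        exact hSv w hw h
      · rintro ⟨h, _⟩
        exact hne h
      · rintro ⟨h, _⟩
        exact hSu i hi h
      · rintro ⟨h, _⟩
        exact hSv i hi h
    have key : ∀ w ∈ S, rk D1 (surv D1 (insert u (insert v S)) w) u +
        rk D1 (surv D1 (insert u (insert v S)) w) v -
        rk D2 (surv D2 (insert u (insert v S)) w) u - rk D2 (surv D2 (insert u (insert v S)) w) v =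
        (if bt D1 u w = true ∧ bt D1 v w = true then dd D1 u v (ft D1 S w) else 0) := by
      intro w hw
      have hwu := hSu w hw
      have hwv := hSv w hw
      have e1 : bt D2 u w = bt D1 u w := hag' u w (fun h => hwv h.2) (fun h => hne h.1)
      have e2 : bt D2 v w = bt D1 v w := hag' v w (fun h => hne h.1.symm) (fun h => hwu h.2)
      have e3 : ft D2 S w = ft D1 S w :=
        ft_congr fun j hj => hag' j w (fun h => hSu j hj h.1) (fun h => hSv j hj h.1)
      -- membership in the survivors
      have m1 : ∀ (D : Tour n) (x : Fin n), x ≠ w → bt D x w = false →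
          x ∉ surv D (insert u (insert v S)) w := by
        intro D x hx hb h
        have h3 := (Finset.mem_filter.mp h).2
        rw [if_neg hx, hb] at h3
        simp at h3
      cases hb1 : bt D1 u w
      · cases hb2 : bt D1 v w
        · rw [rk_not_mem D1 _ u (m1 D1 u hwu.symm hb1), rk_not_mem D1 _ v (m1 D1 v hwv.symm hb2),
            rk_not_mem D2 _ u (m1 D2 u hwu.symm (by rw [e1, hb1])),
            rk_not_mem D2 _ v (m1 D2 v hwv.symm (by rw [e2, hb2]))]
          simp
        · rw [rk_not_mem D1 _ u (m1 D1 u hwu.symm hb1),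
            rk_not_mem D2 _ u (m1 D2 u hwu.symm (by rw [e1, hb1]))]
          rw [surv_lose v (by simp) hb2, surv_lose v (by simp) (by rw [e2, hb2])]
          rw [ft_insert_neg (by rw [hb1]; simp), ft_insert_pos hb2,
            ft_insert_neg (by rw [e1, hb1]; simp), ft_insert_pos (by rw [e2, hb2]), e3]
          rw [rk_congr (D := D1) (D' := D2) (insert v (ft D1 S w)) v]
          · simp
          · intro i hi j hj
            refine hag i j ?_ ?_
            · rintro ⟨h, _⟩
              subst h
              rcases Finset.mem_insert.mp hi with h | h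
              · exact hne h
              · exact hu (ft_subset _ _ _ h)
            · rintro ⟨_, h⟩
              subst h
              rcases Finset.mem_insert.mp hj with h | h
              · exact hne h
              · exact hu (ft_subset _ _ _ h)
      · cases hb2 : bt D1 v w
        · rw [rk_not_mem D1 _ v (m1 D1 v hwv.symm hb2),
            rk_not_mem D2 _ v (m1 D2 v hwv.symm (by rw [e2, hb2]))]
          rw [surv_lose u (by simp) hb1, surv_lose u (by simp) (by rw [e1, hb1])]
          rw [ft_insert_pos hb1, ft_insert_neg (by rw [hb2]; simp),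
            ft_insert_pos (by rw [e1, hb1]), ft_insert_neg (by rw [e2, hb2]; simp), e3]
          rw [rk_congr (D := D1) (D' := D2) (insert u (ft D1 S w)) u]
          · simp
          · intro i hi j hj
            refine hag i j ?_ ?_
            · rintro ⟨_, h⟩
              subst h
              rcases Finset.mem_insert.mp hj with h | h
              · exact hne h.symm
              · exact hv (ft_subset _ _ _ h)
            · rintro ⟨h, _⟩
              subst h
              rcases Finset.mem_insert.mp hi with h | h
              · exact hne h.symm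
              · exact hv (ft_subset _ _ _ h)
        · rw [surv_lose u (by simp) hb1, surv_lose u (by simp) (by rw [e1, hb1])]
          rw [ft_insert_pos hb1, ft_insert_pos hb2,
            ft_insert_pos (by rw [e1, hb1]), ft_insert_pos (by rw [e2, hb2]), e3]
          rw [if_pos ⟨rfl, rfl⟩]
          refine ih _ (by rw [← hn]; exact ft_card_lt D1 hw) _ ?_ ?_ rfl
          · exact fun h => hu (ft_subset _ _ _ h)
          · exact fun h => hv (ft_subset _ _ _ h)
    have key2 : ∑ w ∈ S, rk D1 (surv D1 (insert u (insert v S)) w) u +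
        ∑ w ∈ S, rk D1 (surv D1 (insert u (insert v S)) w) v -
        ∑ w ∈ S, rk D2 (surv D2 (insert u (insert v S)) w) u -
        ∑ w ∈ S, rk D2 (surv D2 (insert u (insert v S)) w) v =
        ∑ w ∈ S, (if bt D1 u w = true ∧ bt D1 v w = true then dd D1 u v (ft D1 S w) else 0) := by
      rw [← Finset.sum_congr rfl key, Finset.sum_sub_distrib, Finset.sum_sub_distrib,
        Finset.sum_add_distrib]
    have h5 := dd_rec D1 u v S
    have h4 : (S.card + 2 : ℝ) ≠ 0 := by positivity
    refine mul_left_cancel₀ h4 ?_
    rw [h5, mul_sub, mul_sub, mul_add, a1, a2, a3, a4, ← c1, ← c2, ← key2]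
    linarith

end Pool.Agent.R4400
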