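import Mathlib

set_option autoImplicit false
set_option linter.unusedSectionVars false

namespace Pool.Agent.R4400

variable {ι : Type} [Fintype ι] [DecidableEq ι]

/-- weight of an outcome -/
noncomputable def w (q : ι → ℝ) (e : ι → Bool) : ℝ := ∏ i, (if e i then q i else 1 - q i)

/-- expectation -/
noncomputable def E (q : ι → ℝ) (f : (ι → Bool) → ℝ) : ℝ := ∑ e, w q e * f e

/-- merging -/
def merge {α : Type} (S : ι → Prop) [DecidablePred S] (σ τ : ι → α) : ι → α :=
  fun i => if S i then σ i else τ i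

lemma sum_w (q : ι → ℝ) : ∑ e, w q e = 1 := by
  unfold w
  have h := Finset.prod_univ_sum (fun _ : ι => (Finset.univ : Finset Bool))
    (fun i b => if b = true then q i else 1 - q i)
  rw [Fintype.piFinset_univ] at h
  rw [← h]
  simp

lemma w_nonneg {q : ι → ℝ} (h0 : ∀ i, 0 ≤ q i) (h1 : ∀ i, q i ≤ 1) (e : ι → Bool) : 0 ≤ w q e := by
  unfold w
  refine Finset.prod_nonneg fun i _ => ?_
  split_ifs
  · exact h0 i
  · linarith [h1 i]

lemma E_const (q : ι → ℝ) (c : ℝ) : E q (fun _ => c) = c := by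
  unfold E
  rw [← Finset.sum_mul, sum_w, one_mul]

lemma E_add (q : ι → ℝ) (f g : (ι → Bool) → ℝ) :
    E q (fun e => f e + g e) = E q f + E q g := by
  unfold E
  rw [← Finset.sum_add_distrib]
  exact Finset.sum_congr rfl fun e _ => by ring

lemma E_sub (q : ι → ℝ) (f g : (ι → Bool) → ℝ) :
    E q (fun e => f e - g e) = E q f - E q g := by
  unfold E
  rw [← Finset.sum_sub_distrib]
  exact Finset.sum_congr rfl fun e _ => by ring

lemma E_mul (q : ι → ℝ) (c : ℝ) (f : (ι → Bool) → ℝ) :
    E q (fun e => c * f e) = c * E q f := by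
  unfold E
  rw [Finset.mul_sum]
  exact Finset.sum_congr rfl fun e _ => by ring

lemma E_mul_right (q : ι → ℝ) (c : ℝ) (f : (ι → Bool) → ℝ) :
    E q (fun e => f e * c) = E q f * c := by
  unfold E
  rw [Finset.sum_mul]
  exact Finset.sum_congr rfl fun e _ => by ring

lemma E_sum {κ : Type} (q : ι → ℝ) (s : Finset κ) (f : κ → (ι → Bool) → ℝ) :
    E q (fun e => ∑ k ∈ s, f k e) = ∑ k ∈ s, E q (f k) := by
  unfold E
  rw [Finset.sum_comm]
  exact Finset.sum_congr rfl fun e _ => by rw [Finset.mul_sum]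

lemma E_mono {q : ι → ℝ} (h0 : ∀ i, 0 ≤ q i) (h1 : ∀ i, q i ≤ 1) {f g : (ι → Bool) → ℝ}
    (h : ∀ e, f e ≤ g e) : E q f ≤ E q g :=
  Finset.sum_le_sum fun e _ => mul_le_mul_of_nonneg_left (h e) (w_nonneg h0 h1 e)

lemma E_nonneg {q : ι → ℝ} (h0 : ∀ i, 0 ≤ q i) (h1 : ∀ i, q i ≤ 1) {f : (ι → Bool) → ℝ}
    (h : ∀ e, 0 ≤ f e) : 0 ≤ E q f := by
  rw [← E_const q 0]
  exact E_mono h0 h1 h

lemma w_merge (S : ι → Prop) [DecidablePred S] (q q' : ι → ℝ) (σ τ : ι → Bool) :
    w q σ * w q' τ = w (merge S q q') (merge S σ τ) * w (merge S q' q) (merge S τ σ) := by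
  unfold w merge
  rw [← Finset.prod_mul_distrib, ← Finset.prod_mul_distrib]
  refine Finset.prod_congr rfl fun i _ => ?_
  by_cases h : S i
  · simp only [h, if_true]
  · simp only [h, if_false]
    ring

lemma E_merge (S : ι → Prop) [DecidablePred S] (q q' : ι → ℝ) (f : (ι → Bool) → ℝ) :
    E (merge S q q') f = E q (fun σ => E q' (fun τ => f (merge S σ τ))) := by
  have h1 : E q (fun σ => E q' (fun τ => f (merge S σ τ))) =
      ∑ x : (ι → Bool) × (ι → Bool), w q x.1 * w q' x.2 * f (merge S x.1 x.2) := by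
    rw [Fintype.sum_prod_type]
    unfold E
    refine Finset.sum_congr rfl fun σ _ => ?_
    rw [Finset.mul_sum]
    exact Finset.sum_congr rfl fun τ _ => by ring
  have h2 : E (merge S q q') f =
      ∑ x : (ι → Bool) × (ι → Bool), w (merge S q q') x.1 * w (merge S q' q) x.2 * f x.1 := by
    rw [Fintype.sum_prod_type]
    unfold E
    refine Finset.sum_congr rfl fun σ _ => ?_
    symm
    show ∑ y : ι → Bool, w (merge S q q') σ * w (merge S q' q) y * f σ = _
    rw [← Finset.sum_mul, ← Finset.mul_sum, sum_w, mul_one]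
  rw [h1, h2]
  symm
  refine Finset.sum_bij' (fun x _ => (merge S x.1 x.2, merge S x.2 x.1))
    (fun x _ => (merge S x.1 x.2, merge S x.2 x.1)) (by simp) (by simp) ?_ ?_ ?_
  · rintro ⟨σ, τ⟩ _
    refine Prod.ext ?_ ?_ <;> funext i <;> by_cases h : S i <;> simp [merge, h]
  · rintro ⟨σ, τ⟩ _
    refine Prod.ext ?_ ?_ <;> funext i <;> by_cases h : S i <;> simp [merge, h]
  · rintro ⟨σ, τ⟩ _
    rw [w_merge S q q' σ τ]

lemma merge_self {α : Type} (S : ι → Prop) [DecidablePred S] (q : ι → α) : merge S q q = q := by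
  funext i
  simp [merge]

lemma E_merge_self (S : ι → Prop) [DecidablePred S] (q : ι → ℝ) (f : (ι → Bool) → ℝ) :
    E q f = E q (fun σ => E q (fun τ => f (merge S σ τ))) := by
  have h := E_merge S q q f
  rwa [merge_self] at h

/-- independence -/
lemma E_indep (S : ι → Prop) [DecidablePred S] (q : ι → ℝ) (X Y : (ι → Bool) → ℝ)
    (hX : ∀ σ τ, X (merge S σ τ) = X σ) (hY : ∀ σ τ, Y (merge S σ τ) = Y τ) :
    E q (fun e => X e * Y e) = E q X * E q Y := by
  rw [E_merge_self S q]
  simp only [hX, hY]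
  simp only [E_mul]
  exact E_mul_right q _ _

lemma E_coord (q : ι → ℝ) (i : ι) (g : Bool → ℝ) :
    E q (fun e => g (e i)) = q i * g true + (1 - q i) * g false := by
  unfold E w
  have h1 : ∀ e : ι → Bool, (∏ j, (if e j then q j else 1 - q j)) * g (e i) =
      ∏ j, ((if e j then q j else 1 - q j) * (if j = i then g (e j) else 1)) := by
    intro e
    rw [Finset.prod_mul_distrib]
    congr 1
    rw [Finset.prod_ite_eq' Finset.univ i]
    simp
  simp only [h1]
  have h := Finset.prod_univ_sum (fun _ : ι => (Finset.univ : Finset Bool))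
    (fun j b => (if b = true then q j else 1 - q j) * (if j = i then g b else 1))
  rw [Fintype.piFinset_univ] at h
  rw [← h, Finset.prod_eq_single i]
  · simp
  · intro j _ hj
    simp [hj]
  · simp

/-- changing one probability -/
lemma E_change (q q' : ι → ℝ) (i : ι) (h : ∀ j, j ≠ i → q' j = q j) (f : (ι → Bool) → ℝ) :
    E q' f = q' i * E q (fun e => f (Function.update e i true)) +
      (1 - q' i) * E q (fun e => f (Function.update e i false)) := by
  have h1 : merge (fun j => j = i) q' q = q' := by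
    funext j
    unfold merge
    split_ifs with hj
    · rfl
    · exact (h j hj).symm
  have h2 := E_merge (fun j => j = i) q' q f
  rw [h1] at h2
  rw [h2]
  have h3 : ∀ σ τ : ι → Bool, merge (fun j => j = i) σ τ = Function.update τ i (σ i) := by
    intro σ τ
    funext j
    unfold merge
    by_cases hj : j = i
    · subst hj
      simp
    · simp [hj]
  simp only [h3]
  exact E_coord q' i (fun b => E q (fun τ => f (Function.update τ i b)))

end Pool.Agent.R4400
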