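import Mathlib
import Pool.Agent.R4400.Prob
import Pool.Agent.R4400.Dd

set_option autoImplicit false
set_option linter.unusedSectionVars false

open Finset

namespace Pool.Agent.R4400

variable {n : ℕ}

/-- probability that `i` beats `j` -/
noncomputable def pw (p : Pair n → ℝ) (i j : Fin n) : ℝ :=
  if h : i < j then p ⟨(i, j), h⟩ else if h : j < i then 1 - p ⟨(j, i), h⟩ else 0

lemma pw_bounds {A : ℝ} {p : Pair n → ℝ} (hp : ∀ x, 1 - A ≤ p x ∧ p x ≤ A) {i j : Fin n}
    (hij : i ≠ j) : 1 - A ≤ pw p i j ∧ pw p i j ≤ A := by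
  unfold pw
  rcases lt_or_gt_of_ne hij with h | h
  · rw [dif_pos h]
    exact hp _
  · rw [dif_neg (not_lt.mpr h.le), dif_pos h]
    have := hp ⟨(j, i), h⟩
    constructor <;> linarith [this.1, this.2]

lemma E_bt (p : Pair n → ℝ) {i j : Fin n} (hij : i ≠ j) (g : Bool → ℝ) :
    E p (fun D => g (bt D i j)) = pw p i j * g true + (1 - pw p i j) * g false := by
  unfold pw
  rcases lt_or_gt_of_ne hij with h | h
  · rw [dif_pos h]
    have e : (fun D : Tour n => g (bt D i j)) = fun D => g (D ⟨(i, j), h⟩) := by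
      funext D
      unfold bt
      rw [dif_pos h]
    rw [e, E_coord]
  · rw [dif_neg (not_lt.mpr h.le), dif_pos h]
    have e : (fun D : Tour n => g (bt D i j)) = fun D => (fun b => g (!b)) (D ⟨(j, i), h⟩) := by
      funext D
      unfold bt
      rw [dif_neg (not_lt.mpr h.le), dif_pos h]
    rw [e, E_coord p ⟨(j, i), h⟩ (fun b => g (!b))]
    simp only [Bool.not_true, Bool.not_false]
    ring

/-- mixing two tournaments along a symmetric relation on teams -/
def mrg (P : Fin n → Fin n → Prop) [DecidableRel P] (σ τ : Tour n) : Tour n :=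
  merge (fun x : Pair n => P x.1.1 x.1.2) σ τ

lemma bt_mrg (P : Fin n → Fin n → Prop) [DecidableRel P] (hP : ∀ i j, P i j → P j i)
    (σ τ : Tour n) (i j : Fin n) : bt (mrg P σ τ) i j = if P i j then bt σ i j else bt τ i j := by
  unfold bt mrg merge
  rcases lt_trichotomy i j with h | h | h
  · rw [dif_pos h, dif_pos h, dif_pos h]
  · subst h
    simp
  · rw [dif_neg (not_lt.mpr h.le), dif_pos h, dif_neg (not_lt.mpr h.le), dif_pos h,
      dif_neg (not_lt.mpr h.le), dif_pos h]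
    by_cases hp : P i j
    · have hp' := hP _ _ hp
      simp only [hp', hp, if_true]
    · have hp' : ¬ P j i := fun h => hp (hP _ _ h)
      simp only [hp', hp, if_false]

lemma E_mrg (P : Fin n → Fin n → Prop) [DecidableRel P] (p : Pair n → ℝ) (f : Tour n → ℝ) :
    E p f = E p (fun σ => E p (fun τ => f (mrg P σ τ))) :=
  E_merge_self (fun x : Pair n => P x.1.1 x.1.2) p f

lemma E_ind (P : Fin n → Fin n → Prop) [DecidableRel P] (p : Pair n → ℝ) (X Y : Tour n → ℝ)
    (hX : ∀ σ τ, X (mrg P σ τ) = X σ) (hY : ∀ σ τ, Y (mrg P σ τ) = Y τ) :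
    E p (fun e => X e * Y e) = E p X * E p Y :=
  E_indep (fun x : Pair n => P x.1.1 x.1.2) p X Y hX hY

lemma E_bt2 (p : Pair n → ℝ) {i j k l : Fin n} (h1 : ¬ (i = k ∧ j = l)) (h2 : ¬ (i = l ∧ j = k))
    (f g : Bool → ℝ) : E p (fun D => f (bt D i j) * g (bt D k l)) =
      E p (fun D => f (bt D i j)) * E p (fun D => g (bt D k l)) := by
  have hP : ∀ a b : Fin n, ((a = i ∧ b = j) ∨ (a = j ∧ b = i)) →
      ((b = i ∧ a = j) ∨ (b = j ∧ a = i)) := by
    intro a b h
    tauto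
  refine E_ind (fun a b => (a = i ∧ b = j) ∨ (a = j ∧ b = i)) p _ _ ?_ ?_
  · intro σ τ
    rw [bt_mrg _ hP, if_pos (Or.inl ⟨rfl, rfl⟩)]
  · intro σ τ
    rw [bt_mrg _ hP, if_neg]
    rintro (⟨h, h'⟩ | ⟨h, h'⟩)
    · exact h1 ⟨h.symm, h'.symm⟩
    · exact h2 ⟨h'.symm, h.symm⟩

/-- indicator of a Boolean -/
def bi (b : Bool) : ℝ := if b = true then 1 else 0

lemma bi_nonneg (b : Bool) : 0 ≤ bi b := by
  unfold bi
  split_ifs <;> norm_num

lemma bi_true : bi true = 1 := by simp [bi]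

lemma bi_false : bi false = 0 := by simp [bi]

lemma E_bi (p : Pair n → ℝ) {i j : Fin n} (hij : i ≠ j) : E p (fun D => bi (bt D i j)) = pw p i j := by
  rw [E_bt p hij, bi_true, bi_false]
  ring

lemma E_bi2 (p : Pair n → ℝ) {i j k l : Fin n} (hij : i ≠ j) (hkl : k ≠ l)
    (h1 : ¬ (i = k ∧ j = l)) (h2 : ¬ (i = l ∧ j = k)) :
    E p (fun D => bi (bt D i j) * bi (bt D k l)) = pw p i j * pw p k l := by
  rw [E_bt2 p h1 h2, E_bi p hij, E_bi p hkl]

/-- expectation of `qd` -/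
noncomputable def qm (p : Pair n → ℝ) (H L : Finset (Fin n)) : ℝ := E p (fun D => qd D H L)

section bounds

variable {A : ℝ} {p : Pair n → ℝ}

lemma p0 (hA : A ≤ 1) (hp : ∀ x, 1 - A ≤ p x ∧ p x ≤ A) : ∀ x, 0 ≤ p x :=
  fun x => by linarith [(hp x).1]

lemma p1 (hA : A ≤ 1) (hp : ∀ x, 1 - A ≤ p x ∧ p x ≤ A) : ∀ x, p x ≤ 1 :=
  fun x => by linarith [(hp x).2]

lemma qm_nonneg (h0 : ∀ x, 0 ≤ p x) (h1 : ∀ x, p x ≤ 1) (H L : Finset (Fin n)) : 0 ≤ qm p H L :=
  E_nonneg h0 h1 fun D => qd_nonneg D H L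

lemma qm_le_one (h0 : ∀ x, 0 ≤ p x) (h1 : ∀ x, p x ≤ 1) (H L : Finset (Fin n)) :
    qm p H L ≤ 1 := by
  rw [← E_const p 1]
  exact E_mono h0 h1 fun D => qd_le_one D H L

lemma qm_le (h0 : ∀ x, 0 ≤ p x) (h1 : ∀ x, p x ≤ 1) (H L : Finset (Fin n)) (hL : L ≠ ∅) :
    qm p H L ≤ H.card / (1 + H.card + L.card) := by
  rw [← E_const p ((H.card : ℝ) / (1 + H.card + L.card))]
  exact E_mono h0 h1 fun D => qd_le D H L hL

lemma qm_empty (H : Finset (Fin n)) : qm p H ∅ = 1 := by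
  unfold qm
  simp only [qd_empty]
  exact E_const p 1

lemma qm_empty_left (L : Finset (Fin n)) (hL : L ≠ ∅) : qm p ∅ L = 0 := by
  unfold qm
  simp only [qd_empty_left _ L hL]
  exact E_const p 0

lemma ft_mrg (P : Fin n → Fin n → Prop) [DecidableRel P] (hP : ∀ i j, P i j → P j i)
    (σ τ : Tour n) (S : Finset (Fin n)) (h : Fin n) (hh : ∀ j ∈ S, P j h) :
    ft (mrg P σ τ) S h = ft σ S h :=
  ft_congr fun j hj => by rw [bt_mrg P hP, if_pos (hh j hj)]

lemma qm_step (h : Fin n) (H L : Finset (Fin n)) :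
    E p (fun D => qd D (ft D H h) (ft D L h)) = E p (fun σ => qm p (ft σ H h) (ft σ L h)) := by
  have hP : ∀ a b : Fin n, (a = h ∨ b = h) → (b = h ∨ a = h) := fun a b => Or.symm
  rw [E_mrg (fun a b => a = h ∨ b = h)]
  unfold qm
  congr 1
  funext σ
  congr 1
  funext τ
  rw [ft_mrg _ hP σ τ H h (fun j _ => Or.inr rfl), ft_mrg _ hP σ τ L h (fun j _ => Or.inr rfl)]
  refine qd_congr _ _ fun i hi j hj => ?_
  have hne : ∀ i ∈ ft σ H h ∪ ft σ L h, i ≠ h := by
    rintro i hi rfl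
    rcases Finset.mem_union.mp hi with h1 | h1
    · exact ft_not_mem _ _ _ h1
    · exact ft_not_mem _ _ _ h1
  rw [bt_mrg _ hP, if_neg]
  rintro (h1 | h1)
  · exact hne i hi h1
  · exact hne j hj h1

lemma qm_rec (H L : Finset (Fin n)) (hL : L ≠ ∅) :
    (1 + H.card + L.card : ℝ) * qm p H L = ∑ h ∈ H, E p (fun σ => qm p (ft σ H h) (ft σ L h)) := by
  rw [← Finset.sum_congr rfl (fun h _ => qm_step (p := p) h H L), ← E_sum]
  unfold qm
  rw [← E_mul]
  congr 1
  funext D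
  exact qd_rec D H L hL

/-- the increment -/
noncomputable def dl (p : Pair n → ℝ) (w : Fin n) (H L : Finset (Fin n)) : ℝ :=
  qm p (insert w H) L - qm p H L

lemma dl_empty (w : Fin n) (H : Finset (Fin n)) : dl p w H ∅ = 0 := by
  unfold dl
  rw [qm_empty, qm_empty, sub_self]

lemma dl_rec (w : Fin n) (H L : Finset (Fin n)) (hw : w ∉ H) (hL : L ≠ ∅) :
    (H.card + L.card + 2 : ℝ) * dl p w H L =
      ∑ h ∈ H, E p (fun σ => bi (bt σ w h) * dl p w (ft σ H h) (ft σ L h)) +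
        E p (fun σ => qm p (ft σ H w) (ft σ L w)) - qm p H L := by
  have h1 := qm_rec (p := p) (insert w H) L hL
  have h2 := qm_rec (p := p) H L hL
  rw [Finset.card_insert_of_notMem hw, Finset.sum_insert hw] at h1
  have e1 : E p (fun σ => qm p (ft σ (insert w H) w) (ft σ L w)) =
      E p (fun σ => qm p (ft σ H w) (ft σ L w)) := by
    congr 1
    funext σ
    rw [ft_insert_neg (by rw [bt_self]; simp)]
  have e2 : ∑ h ∈ H, E p (fun σ => qm p (ft σ (insert w H) h) (ft σ L h)) =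
      ∑ h ∈ H, E p (fun σ => bi (bt σ w h) * dl p w (ft σ H h) (ft σ L h)) +
        ∑ h ∈ H, E p (fun σ => qm p (ft σ H h) (ft σ L h)) := by
    rw [← Finset.sum_add_distrib]
    refine Finset.sum_congr rfl fun h _ => ?_
    rw [← E_add]
    congr 1
    funext σ
    cases hb : bt σ w h
    · rw [ft_insert_neg (by rw [hb]; simp), bi_false]
      ring
    · rw [ft_insert_pos hb, bi_true]
      unfold dl
      ring
  rw [e1, e2, ← h2] at h1
  unfold dl at h1 ⊢
  push_cast at h1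
  linarith

end bounds

end Pool.Agent.R4400
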