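import Mathlib
import Pool.Agent.R4400.Exp

set_option autoImplicit false
set_option linter.unusedSectionVars false

open Finset

namespace Pool.Agent.R4400

variable {n : ℕ}

lemma num_low (A h : ℝ) (hA : A ≤ 1) (hA0 : 1 / 2 ≤ A) (hh : 0 ≤ h) :
    h * (A * (A / 3)) + h / (h + 2) ≤ (h + 3) * (A / 3) := by
  have h2 : 0 < h + 2 := by linarith
  have key : 0 ≤ (h + 3) * (h + 2) * A - h * (h + 2) * A ^ 2 - 3 * h := by
    have e1 : 0 ≤ h * (h + 2) * ((A - 1 / 2) * (1 - A)) :=
      mul_nonneg (mul_nonneg hh h2.le) (mul_nonneg (by linarith) (by linarith))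
    have e2 : 0 ≤ (1 - A) * ((h - 2) ^ 2 + 8) := mul_nonneg (by linarith) (by positivity)
    nlinarith
  have h3 : h / (h + 2) = 1 - 2 / (h + 2) := by
    field_simp
    ring
  rw [← sub_nonneg]
  have e : (h + 3) * (A / 3) - (h * (A * (A / 3)) + h / (h + 2)) =
      ((h + 3) * (h + 2) * A - h * (h + 2) * A ^ 2 - 3 * h) / (3 * (h + 2)) := by
    field_simp
    ring
  rw [e]
  positivity

lemma num_up2 (A h : ℝ) (hA : A ≤ 1) (hA0 : 1 / 2 ≤ A) (hh : 0 ≤ h) :
    h * (A * (A / 3)) + (h / (h + 2) + (1 - h / (h + 2)) * (A * A)) ≤ (h + 4) * (A / 3) := by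
  have h2 : 0 < h + 2 := by linarith
  have key : 0 ≤ (h + 4) * (h + 2) * A - (h ^ 2 + 2 * h + 6) * A ^ 2 - 3 * h := by
    have e1 : 0 ≤ (h ^ 2 + 2 * h + 6) * ((A - 1 / 2) * (1 - A)) :=
      mul_nonneg (by positivity) (mul_nonneg (by linarith) (by linarith))
    have e2 : 0 ≤ (1 - A) * ((h - 1) ^ 2 + 9) := mul_nonneg (by linarith) (by positivity)
    have e3 : 0 ≤ (2 * A - 1) * (h + 2) := mul_nonneg (by linarith) h2.le
    nlinarith
  rw [← sub_nonneg]
  have e : (h + 4) * (A / 3) -
      (h * (A * (A / 3)) + (h / (h + 2) + (1 - h / (h + 2)) * (A * A))) =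
      ((h + 4) * (h + 2) * A - (h ^ 2 + 2 * h + 6) * A ^ 2 - 3 * h) / (3 * (h + 2)) := by
    field_simp
    ring
  rw [e]
  positivity

lemma num_up1 (A h : ℝ) (hA : A ≤ 1) (hA0 : 1 / 2 ≤ A) (hh : 0 ≤ h) (hh' : h = 0 ∨ 2 ≤ h) :
    h * (A * (A * (A / 3))) + (A + (1 - A) * (h / (h + 2))) ≤ (h + 3) * (A / 3) := by
  have h2 : 0 < h + 2 := by linarith
  have key : 0 ≤ h * (1 - A) * ((h + 2) * A * (1 + A) - 3) := by
    rcases hh' with h' | h'
    · rw [h']
      simp
    · refine mul_nonneg (mul_nonneg hh (by linarith)) ?_
      have e1 : 3 / 4 ≤ A * (1 + A) := by nlinarith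
      nlinarith [mul_nonneg (by linarith : 0 ≤ h - 2) (by linarith : 0 ≤ A * (1 + A) - 3 / 4)]
  rw [← sub_nonneg]
  have e : (h + 3) * (A / 3) - (h * (A * (A * (A / 3))) + (A + (1 - A) * (h / (h + 2)))) =
      (h * (1 - A) * ((h + 2) * A * (1 + A) - 3)) / (3 * (h + 2)) := by
    field_simp
    ring
  rw [e]
  positivity

variable {A : ℝ} {p : Pair n → ℝ}

lemma T_le (hA : A ≤ 1) (hA0 : 1 / 2 ≤ A) (hp : ∀ x, 1 - A ≤ p x ∧ p x ≤ A) {w h : Fin n}
    (hwh : w ≠ h) (F : Tour n → ℝ) (c : ℝ) (hc : 0 ≤ c) (hF : ∀ σ, F σ ≤ c) :
    E p (fun σ => bi (bt σ w h) * F σ) ≤ A * c := by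
  have h1 : E p (fun σ => bi (bt σ w h) * F σ) ≤ E p (fun σ => bi (bt σ w h) * c) :=
    E_mono (p0 hA hp) (p1 hA hp) fun σ => mul_le_mul_of_nonneg_left (hF σ) (bi_nonneg _)
  rw [E_mul_right, E_bi p hwh] at h1
  exact le_trans h1 (mul_le_mul_of_nonneg_right (pw_bounds hp hwh).2 hc)

lemma T_ge (hA : A ≤ 1) (hA0 : 1 / 2 ≤ A) (hp : ∀ x, 1 - A ≤ p x ∧ p x ≤ A) {w h : Fin n}
    (hwh : w ≠ h) (F : Tour n → ℝ) (c : ℝ) (hc : 0 ≤ c) (hF : ∀ σ, -c ≤ F σ) :
    -(A * c) ≤ E p (fun σ => bi (bt σ w h) * F σ) := by
  have h1 : E p (fun σ => bi (bt σ w h) * (-c)) ≤ E p (fun σ => bi (bt σ w h) * F σ) :=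
    E_mono (p0 hA hp) (p1 hA hp) fun σ => mul_le_mul_of_nonneg_left (hF σ) (bi_nonneg _)
  rw [E_mul_right, E_bi p hwh] at h1
  have h2 := mul_le_mul_of_nonneg_right (pw_bounds hp hwh).2 hc
  linarith

lemma ft_singleton_true {σ : Tour n} {l w : Fin n} (h : bt σ l w = true) : ft σ {l} w = {l} := by
  unfold ft
  rw [Finset.filter_singleton, if_pos h]

lemma ft_singleton_false {σ : Tour n} {l w : Fin n} (h : bt σ l w = false) : ft σ {l} w = ∅ := by
  unfold ft
  rw [Finset.filter_singleton, if_neg (by rw [h]; simp)]

lemma frac_mono {a h l : ℝ} (ha : 0 ≤ a) (hah : a ≤ h) (hl : 1 ≤ l) :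
    a / (1 + a + l) ≤ h / (h + 2) := by
  rw [div_le_div_iff₀ (by linarith) (by linarith)]
  nlinarith

lemma qm_le2 (hA : A ≤ 1) (hp : ∀ x, 1 - A ≤ p x ∧ p x ≤ A) (σ : Tour n)
    (H L : Finset (Fin n)) (w : Fin n) (hL : ft σ L w ≠ ∅) :
    qm p (ft σ H w) (ft σ L w) ≤ H.card / (H.card + 2) := by
  refine le_trans (qm_le (p0 hA hp) (p1 hA hp) _ _ hL) (frac_mono (by positivity) ?_ ?_)
  · exact_mod_cast Finset.card_le_card (ft_subset σ H w)
  · have : 1 ≤ (ft σ L w).card := Finset.card_pos.mpr (Finset.nonempty_iff_ne_empty.mpr hL)
    exact_mod_cast this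

theorem dl_bound (hA : A ≤ 1) (hA0 : 1 / 2 ≤ A) (hp : ∀ x, 1 - A ≤ p x ∧ p x ≤ A)
    (H L : Finset (Fin n)) (w : Fin n) (hHL : Disjoint H L) (hwH : w ∉ H) (hwL : w ∉ L) :
    |dl p w H L| ≤ A / 3 := by
  have q0 := p0 hA hp
  have q1 := p1 hA hp
  induction hn : H.card using Nat.strong_induction_on generalizing H L with
  | _ N ih =>
    by_cases hL : L = ∅
    · subst hL
      rw [dl_empty, abs_zero]
      linarith
    · have hLn : 1 ≤ L.card := Finset.card_pos.mpr (Finset.nonempty_iff_ne_empty.mpr hL)
      have hLr : (1 : ℝ) ≤ L.card := by exact_mod_cast hLn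
      have hHr : (0 : ℝ) ≤ H.card := by positivity
      have IH : ∀ h ∈ H, ∀ σ : Tour n, |dl p w (ft σ H h) (ft σ L h)| ≤ A / 3 := by
        intro h hh σ
        refine ih _ (by rw [← hn]; exact ft_card_lt σ hh) _ _ ?_ ?_ ?_ rfl
        · exact Finset.disjoint_of_subset_left (ft_subset _ _ _)
            (Finset.disjoint_of_subset_right (ft_subset _ _ _) hHL)
        · exact fun h' => hwH (ft_subset _ _ _ h')
        · exact fun h' => hwL (ft_subset _ _ _ h')
      have hwh : ∀ h ∈ H, w ≠ h := by
        rintro h hh rfl
        exact hwH hh
      have hrec := dl_rec (p := p) w H L hwH hL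
      have hA3 : 0 ≤ A / 3 := by linarith
      have hE0 : 0 ≤ E p (fun σ => qm p (ft σ H w) (ft σ L w)) :=
        E_nonneg q0 q1 fun σ => qm_nonneg q0 q1 _ _
      have hq0 : 0 ≤ qm p H L := qm_nonneg q0 q1 _ _
      have hTu : ∑ h ∈ H, E p (fun σ => bi (bt σ w h) * dl p w (ft σ H h) (ft σ L h)) ≤
          H.card * (A * (A / 3)) := by
        rw [← nsmul_eq_mul]
        refine Finset.sum_le_card_nsmul _ _ _ fun h hh => ?_
        exact T_le hA hA0 hp (hwh h hh) _ _ hA3 fun σ => (abs_le.mp (IH h hh σ)).2
      have hTl : -(H.card * (A * (A / 3))) ≤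
          ∑ h ∈ H, E p (fun σ => bi (bt σ w h) * dl p w (ft σ H h) (ft σ L h)) := by
        rw [← mul_neg, ← nsmul_eq_mul]
        refine Finset.card_nsmul_le_sum _ _ _ fun h hh => ?_
        exact T_ge hA hA0 hp (hwh h hh) _ _ hA3 fun σ => (abs_le.mp (IH h hh σ)).1
      rw [abs_le]
      constructor
      · -- lower bound
        have hq : qm p H L ≤ H.card / (H.card + 2) :=
          le_trans (qm_le q0 q1 H L hL) (frac_mono hHr le_rfl hLr)
        have hnum := num_low A H.card hA hA0 hHr
        have h1 : -((H.card + 3) * (A / 3)) ≤ (H.card + L.card + 2 : ℝ) * dl p w H L := by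
          rw [hrec]
          linarith
        by_contra hcon
        push Not at hcon
        have h2 : (H.card + L.card + 2 : ℝ) * dl p w H L <
            (H.card + L.card + 2 : ℝ) * (-(A / 3)) :=
          mul_lt_mul_of_pos_left hcon (by positivity)
        nlinarith
      · -- upper bound
        rcases Nat.lt_or_ge 1 L.card with hL2 | hL1
        · -- at least two elements
          obtain ⟨l1, hl1, l2, hl2, hl12⟩ := Finset.one_lt_card.mp hL2
          have hl1w : l1 ≠ w := by
            rintro rfl
            exact hwL hl1
          have hl2w : l2 ≠ w := by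
            rintro rfl
            exact hwL hl2
          set θ : ℝ := (H.card : ℝ) / (H.card + 2) with hθ
          have hθ0 : 0 ≤ θ := by positivity
          have hθ1 : θ ≤ 1 := by
            rw [hθ, div_le_one (by positivity)]
            linarith
          have hE : E p (fun σ => qm p (ft σ H w) (ft σ L w)) ≤ θ + (1 - θ) * (A * A) := by
            have h1 : E p (fun σ => qm p (ft σ H w) (ft σ L w)) ≤
                E p (fun σ => θ + (1 - θ) * (bi (!bt σ l1 w) * bi (!bt σ l2 w))) := by
              refine E_mono q0 q1 fun σ => ?_
              by_cases hLw : ft σ L w = ∅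
              · have e1 : bt σ l1 w = false := by
                  by_contra hb
                  have : l1 ∈ ft σ L w := mem_ft.mpr ⟨hl1, by simpa using hb⟩
                  rw [hLw] at this
                  simp at this
                have e2 : bt σ l2 w = false := by
                  by_contra hb
                  have : l2 ∈ ft σ L w := mem_ft.mpr ⟨hl2, by simpa using hb⟩
                  rw [hLw] at this
                  simp at this
                rw [e1, e2, hLw, qm_empty]
                simp [bi]
              · have h2 := qm_le2 hA hp σ H L w hLw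
                have h3 : 0 ≤ (1 - θ) * (bi (!bt σ l1 w) * bi (!bt σ l2 w)) :=
                  mul_nonneg (by linarith) (mul_nonneg (bi_nonneg _) (bi_nonneg _))
                linarith
            refine le_trans h1 ?_
            rw [E_add, E_const, E_mul]
            have h4 : E p (fun σ => bi (!bt σ l1 w) * bi (!bt σ l2 w)) =
                (1 - pw p l1 w) * (1 - pw p l2 w) := by
              rw [E_bt2 p (i := l1) (j := w) (k := l2) (l := w) (by tauto) (by tauto)
                (fun b => bi (!b)) (fun b => bi (!b)), E_bt p hl1w (fun b => bi (!b)),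
                E_bt p hl2w (fun b => bi (!b))]
              simp [bi]
            rw [h4]
            have b1 := pw_bounds hp hl1w
            have b2 := pw_bounds hp hl2w
            have h5 : (1 - pw p l1 w) * (1 - pw p l2 w) ≤ A * A :=
              mul_le_mul (by linarith [b1.1]) (by linarith [b2.1]) (by linarith [b2.2])
                (by linarith)
            have h6 := mul_le_mul_of_nonneg_left h5 (by linarith : 0 ≤ 1 - θ)
            linarith
          have hnum := num_up2 A H.card hA hA0 hHr
          have h1 : (H.card + L.card + 2 : ℝ) * dl p w H L ≤ (H.card + 4) * (A / 3) := by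
            rw [hrec]
            linarith
          have hL2r : (2 : ℝ) ≤ L.card := by exact_mod_cast hL2
          by_contra hcon
          push Not at hcon
          have h2 : (H.card + L.card + 2 : ℝ) * (A / 3) <
              (H.card + L.card + 2 : ℝ) * dl p w H L :=
            mul_lt_mul_of_pos_left hcon (by positivity)
          nlinarith
        · -- exactly one element
          obtain ⟨l, rfl⟩ := Finset.card_eq_one.mp (le_antisymm hL1 hLn)
          have hlw : l ≠ w := by
            rintro rfl
            simp at hwL
          have hlH : ∀ h ∈ H, l ≠ h := by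
            rintro h hh rfl
            exact (Finset.disjoint_left.mp hHL) hh (Finset.mem_singleton_self _)
          have hTu' : ∑ h ∈ H, E p (fun σ => bi (bt σ w h) * dl p w (ft σ H h) (ft σ {l} h)) ≤
              H.card * (A * (A * (A / 3))) := by
            rw [← nsmul_eq_mul]
            refine Finset.sum_le_card_nsmul _ _ _ fun h hh => ?_
            have h1 : E p (fun σ => bi (bt σ w h) * dl p w (ft σ H h) (ft σ {l} h)) ≤
                E p (fun σ => (bi (bt σ w h) * bi (bt σ l h)) * (A / 3)) := by
              refine E_mono q0 q1 fun σ => ?_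
              cases hb : bt σ l h
              · rw [ft_singleton_false hb, dl_empty, bi_false]
                simp
              · rw [bi_true, mul_one]
                exact mul_le_mul_of_nonneg_left (abs_le.mp (IH h hh σ)).2 (bi_nonneg _)
            rw [E_mul_right, E_bi2 p (hwh h hh) (hlH h hh) (fun h' => hlw h'.1.symm)
              (fun h' => hwh h hh h'.1)] at h1
            have b1 := pw_bounds hp (hwh h hh)
            have b2 := pw_bounds hp (hlH h hh)
            have h5 : pw p w h * pw p l h ≤ A * A :=
              mul_le_mul b1.2 b2.2 (by linarith [b2.1]) (by linarith)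
            have h6 := mul_le_mul_of_nonneg_right h5 hA3
            linarith
          rcases Nat.lt_or_ge 1 H.card with hH2 | hH1
          · -- at least two in H
            set θ : ℝ := (H.card : ℝ) / (H.card + 2) with hθ
            have hθ0 : 0 ≤ θ := by positivity
            have hθ1 : θ ≤ 1 := by
              rw [hθ, div_le_one (by positivity)]
              linarith
            have hE : E p (fun σ => qm p (ft σ H w) (ft σ {l} w)) ≤ A + (1 - A) * θ := by
              have h1 : E p (fun σ => qm p (ft σ H w) (ft σ {l} w)) ≤
                  E p (fun σ => (fun b : Bool => if b = true then θ else 1) (bt σ l w)) := by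
                refine E_mono q0 q1 fun σ => ?_
                cases hb : bt σ l w
                · simp only [Bool.false_eq_true, if_false]
                  exact qm_le_one q0 q1 _ _
                · simp only [if_true]
                  refine qm_le2 hA hp σ H {l} w ?_
                  rw [ft_singleton_true hb]
                  simp
              rw [E_bt p hlw (fun b : Bool => if b = true then θ else 1)] at h1
              simp only [if_true, Bool.false_eq_true, if_false] at h1
              have b1 := pw_bounds hp hlw
              nlinarith [mul_nonneg (by linarith [b1.1] : 0 ≤ pw p l w - (1 - A))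
                (by linarith : 0 ≤ 1 - θ)]
            have hH2r : (2 : ℝ) ≤ H.card := by exact_mod_cast hH2
            have hnum := num_up1 A H.card hA hA0 hHr (Or.inr hH2r)
            have h1 : (H.card + ({l} : Finset (Fin n)).card + 2 : ℝ) * dl p w H {l} ≤
                (H.card + 3) * (A / 3) := by
              rw [hrec]
              linarith
            rw [Finset.card_singleton] at h1
            push_cast at h1
            by_contra hcon
            push Not at hcon
            have h2 : (H.card + 1 + 2 : ℝ) * (A / 3) <
                (H.card + 1 + 2 : ℝ) * dl p w H {l} :=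
              mul_lt_mul_of_pos_left hcon (by positivity)
            nlinarith
          · rcases Nat.eq_zero_or_pos H.card with hH0 | hHp
            · -- H empty
              rw [Finset.card_eq_zero] at hH0
              subst hH0
              have hE : E p (fun σ => qm p (ft σ ∅ w) (ft σ {l} w)) ≤ A := by
                have h1 : E p (fun σ => qm p (ft σ ∅ w) (ft σ {l} w)) ≤
                    E p (fun σ => bi (!bt σ l w)) := by
                  refine E_mono q0 q1 fun σ => ?_
                  have e : ft σ ∅ w = ∅ := by
                    unfold ft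
                    simp
                  rw [e]
                  cases hb : bt σ l w
                  · rw [ft_singleton_false hb, qm_empty]
                    simp [bi]
                  · rw [ft_singleton_true hb, qm_empty_left _ (by simp)]
                    simp [bi]
                rw [E_bt p hlw (fun b => bi (!b))] at h1
                simp only [Bool.not_true, Bool.not_false, bi_true, bi_false] at h1
                linarith [(pw_bounds hp hlw).1]
              rw [Finset.sum_empty, Finset.card_empty, Finset.card_singleton] at hrec
              push_cast at hrec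
              linarith
            · -- H a singleton
              obtain ⟨g, rfl⟩ := Finset.card_eq_one.mp (le_antisymm hH1 hHp)
              have hgl : g ≠ l := (hlH g (Finset.mem_singleton_self _)).symm
              have hgw : g ≠ w := (hwh g (Finset.mem_singleton_self _)).symm
              -- the value of qm {g} {l}
              have hq1 : qm p {g} {l} ≤ A / 3 := by
                have h1 := qm_rec (p := p) {g} {l} (by simp)
                rw [Finset.sum_singleton, Finset.card_singleton, Finset.card_singleton] at h1
                have h2 : E p (fun σ => qm p (ft σ {g} g) (ft σ {l} g)) ≤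
                    E p (fun σ => bi (!bt σ l g)) := by
                  refine E_mono q0 q1 fun σ => ?_
                  have e : ft σ {g} g = ∅ := ft_singleton_false (bt_self σ g)
                  rw [e]
                  cases hb : bt σ l g
                  · rw [ft_singleton_false hb, qm_empty]
                    simp [bi]
                  · rw [ft_singleton_true hb, qm_empty_left _ (by simp)]
                    simp [bi]
                rw [E_bt p hgl.symm (fun b => bi (!b))] at h2
                simp only [Bool.not_true, Bool.not_false, bi_true, bi_false] at h2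
                push_cast at h1
                linarith [(pw_bounds hp hgl.symm).1]
              set q := qm p {g} {l} with hq
              have hE : E p (fun σ => qm p (ft σ {g} w) (ft σ {l} w)) ≤
                  A + (1 - A) * (A * (A / 3)) := by
                have h1 : E p (fun σ => qm p (ft σ {g} w) (ft σ {l} w)) ≤
                    E p (fun σ => bi (!bt σ l w) + (bi (bt σ l w) * bi (bt σ g w)) * q) := by
                  refine E_mono q0 q1 fun σ => ?_
                  cases hb : bt σ l w
                  · rw [ft_singleton_false hb, qm_empty]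
                    simp [bi]
                  · rw [ft_singleton_true hb]
                    cases hb2 : bt σ g w
                    · rw [ft_singleton_false hb2, qm_empty_left _ (by simp)]
                      simp [bi]
                    · rw [ft_singleton_true hb2, ← hq]
                      simp [bi]
                rw [E_add, E_mul_right, E_bt p hlw (fun b => bi (!b)),
                  E_bi2 p hlw hgw (fun h' => hgl h'.1.symm) (fun h' => hlw h'.1)] at h1
                simp only [Bool.not_true, Bool.not_false, bi_true, bi_false] at h1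
                have b1 := pw_bounds hp hlw
                have b2 := pw_bounds hp hgw
                have hqn : 0 ≤ q := hq0
                have e1 : pw p g w * q ≤ A * (A / 3) :=
                  mul_le_mul b2.2 hq1 hqn (by linarith)
                have e2 : pw p l w * (pw p g w * q) ≤ pw p l w * (A * (A / 3)) :=
                  mul_le_mul_of_nonneg_left e1 (by linarith [b1.1])
                have e3 : A * (A / 3) ≤ 1 := by nlinarith
                have e4 : 0 ≤ (pw p l w - (1 - A)) * (1 - A * (A / 3)) :=
                  mul_nonneg (by linarith [b1.1]) (by linarith)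
                nlinarith
              rw [Finset.card_singleton] at hTu'
              rw [Finset.card_singleton, Finset.card_singleton] at hrec
              push_cast at hrec hTu'
              have e5 : A * (A * (A / 3)) + (A + (1 - A) * (A * (A / 3))) ≤ 4 * (A / 3) := by
                nlinarith
              linarith

end Pool.Agent.R4400
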