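import Mathlib
import Pool.Agent.R4400.Delta

set_option autoImplicit false
set_option linter.unusedSectionVars false
set_option linter.unusedVariables false

open Finset

namespace Pool.Agent.R4400

variable {n : ℕ} {A : ℝ} {p : Pair n → ℝ}

/-- hybrid sets -/
def Cs (D : Tour n) (u v : Fin n) (S T : Finset (Fin n)) : Finset (Fin n) :=
  S.filter (fun w => (w ∉ T ∧ bt D u w = true ∧ bt D v w = false) ∨
    (w ∈ T ∧ bt D u w = false ∧ bt D v w = true))

lemma Cs_empty (D : Tour n) (u v : Fin n) (S : Finset (Fin n)) : Cs D u v S ∅ = W D u v S := by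
  unfold Cs W
  refine Finset.filter_congr fun w _ => ?_
  simp

lemma Cs_full (D : Tour n) (u v : Fin n) (S : Finset (Fin n)) : Cs D u v S S = W D v u S := by
  unfold Cs W
  refine Finset.filter_congr fun w hw => ?_
  simp only [hw, not_true, false_and, false_or, true_and]
  tauto

lemma pr_E (u : Fin n) (S : Finset (Fin n)) (hu : u ∉ S) :
    E p (fun σ => pr σ u S) = ∏ w ∈ S, pw p u w := by
  induction S using Finset.induction_on with
  | empty =>
    unfold pr
    simp only [Finset.prod_empty]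
    exact E_const p 1
  | insert w T hw ih =>
    have huw : u ≠ w := by
      rintro rfl
      exact hu (Finset.mem_insert_self _ _)
    have huT : u ∉ T := fun h => hu (Finset.mem_insert_of_mem h)
    rw [Finset.prod_insert hw, ← ih huT, ← E_bi p huw]
    have e : (fun σ : Tour n => pr σ u (insert w T)) =
        fun σ => bi (bt σ u w) * pr σ u T := by
      funext σ
      unfold pr
      rw [Finset.prod_insert hw]
      rfl
    rw [e]
    have hP : ∀ a b : Fin n, ((a = u ∧ b = w) ∨ (a = w ∧ b = u)) →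
        ((b = u ∧ a = w) ∨ (b = w ∧ a = u)) := by
      intro a b h
      tauto
    refine E_ind (fun a b => (a = u ∧ b = w) ∨ (a = w ∧ b = u)) p _ _ ?_ ?_
    · intro σ τ
      show bi (bt (mrg _ σ τ) u w) = bi (bt σ u w)
      rw [bt_mrg _ hP, if_pos (Or.inl ⟨rfl, rfl⟩)]
    · intro σ τ
      refine pr_congr fun x hx => ?_
      rw [bt_mrg _ hP, if_neg]
      rintro (⟨_, h⟩ | ⟨h, _⟩)
      · subst h
        exact hw hx
      · exact huw h

/-- one step of the hybrid argument, pointwise -/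
lemma hyb_point (σ : Tour n) (u v : Fin n) (S T : Finset (Fin n)) (w : Fin n) (hw : w ∈ S)
    (hwT : w ∉ T) :
    qm p (Cs σ u v S T) (Z σ u v S) - qm p (Cs σ u v S (insert w T)) (Z σ u v S) =
      (bi (bt σ u w) - bi (bt σ v w)) * dl p w (Cs σ u v (S.erase w) T) (Z σ u v (S.erase w)) := by
  have hS : S = insert w (S.erase w) := (Finset.insert_erase hw).symm
  have hC' : ∀ T', (∀ x, x ≠ w → (x ∈ T' ↔ x ∈ T)) → Cs σ u v (S.erase w) T' =
      Cs σ u v (S.erase w) T := by
    intro T' hT'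
    unfold Cs
    refine Finset.filter_congr fun x hx => ?_
    rw [hT' x (Finset.ne_of_mem_erase hx)]
  have hC1 : Cs σ u v S T = if bt σ u w = true ∧ bt σ v w = false then
      insert w (Cs σ u v (S.erase w) T) else Cs σ u v (S.erase w) T := by
    conv_lhs => rw [hS]
    unfold Cs
    rw [Finset.filter_insert]
    by_cases h : bt σ u w = true ∧ bt σ v w = false
    · rw [if_pos h, if_pos (Or.inl ⟨hwT, h⟩)]
    · rw [if_neg h, if_neg]
      rintro (⟨_, h'⟩ | ⟨h', _⟩)
      · exact h h'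
      · exact hwT h'
  have hC2 : Cs σ u v S (insert w T) = if bt σ u w = false ∧ bt σ v w = true then
      insert w (Cs σ u v (S.erase w) T) else Cs σ u v (S.erase w) T := by
    have hCC : Cs σ u v (S.erase w) (insert w T) = Cs σ u v (S.erase w) T :=
      hC' (insert w T) fun x hx => by simp [hx]
    rw [← hCC]
    conv_lhs => rw [hS]
    unfold Cs
    rw [Finset.filter_insert]
    by_cases h : bt σ u w = false ∧ bt σ v w = true
    · rw [if_pos h, if_pos (Or.inr ⟨Finset.mem_insert_self _ _, h⟩)]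
    · rw [if_neg h, if_neg]
      rintro (⟨h', _⟩ | ⟨_, h'⟩)
      · exact h' (Finset.mem_insert_self _ _)
      · exact h h'
  have hZ : ¬ (bt σ u w = false ∧ bt σ v w = false) → Z σ u v S = Z σ u v (S.erase w) := by
    intro h
    conv_lhs => rw [hS]
    unfold Z
    rw [Finset.filter_insert, if_neg h]
  rw [hC1, hC2]
  cases hu : bt σ u w
  · cases hv : bt σ v w
    · simp [bi]
    · rw [hZ (by rw [hu, hv]; simp)]
      simp only [Bool.false_eq_true, false_and, if_false, and_self, if_true]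
      unfold dl
      rw [bi_false, bi_true]
      ring
  · cases hv : bt σ v w
    · rw [hZ (by rw [hu, hv]; simp)]
      simp only [and_self, if_true, Bool.true_eq_false, Bool.false_eq_true, if_false]
      unfold dl
      rw [bi_false, bi_true]
      ring
    · simp [bi]

lemma Z_empty_of {σ : Tour n} {u v : Fin n} {S : Finset (Fin n)} (h : ∀ w ∈ S, bt σ u w = true) :
    Z σ u v S = ∅ := by
  unfold Z
  refine Finset.filter_false_of_mem fun w hw => ?_
  rw [h w hw]
  simp

lemma dl_pr (hA : A ≤ 1) (hA0 : 1 / 2 ≤ A) (hp : ∀ x, 1 - A ≤ p x ∧ p x ≤ A) (σ : Tour n)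
    (u v : Fin n) (S T : Finset (Fin n)) (w : Fin n) (hw : w ∉ S) :
    |dl p w (Cs σ u v S T) (Z σ u v S)| ≤ (A / 3) * (1 - pr σ u S) := by
  by_cases h : ∀ x ∈ S, bt σ u x = true
  · rw [Z_empty_of h, dl_empty, pr_one h]
    simp
  · push Not at h
    obtain ⟨x, hx, hb⟩ := h
    rw [pr_zero x hx (by simpa using hb), sub_zero, mul_one]
    refine dl_bound hA hA0 hp _ _ _ ?_ ?_ ?_
    · rw [Finset.disjoint_left]
      intro y h1 h2
      have h3 := (Finset.mem_filter.mp h1).2
      have h4 := (Finset.mem_filter.mp h2).2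
      rw [h4.1, h4.2] at h3
      simp at h3
    · exact fun h' => hw (Finset.filter_subset _ _ h')
    · exact fun h' => hw (Finset.filter_subset _ _ h')

lemma hyb_step (hA : A ≤ 1) (hA0 : 1 / 2 ≤ A) (hp : ∀ x, 1 - A ≤ p x ∧ p x ≤ A)
    (u v : Fin n) (huv : u ≠ v) (S T : Finset (Fin n)) (hu : u ∉ S) (hv : v ∉ S) (w : Fin n)
    (hw : w ∈ S) (hwT : w ∉ T) :
    E p (fun σ => qm p (Cs σ u v S T) (Z σ u v S)) -
      E p (fun σ => qm p (Cs σ u v S (insert w T)) (Z σ u v S)) ≤
      (A / 3) * (|pw p u w - pw p v w| * (1 - ∏ j ∈ S.erase w, pw p u j)) := by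
  have q0 := p0 hA hp
  have q1 := p1 hA hp
  have huw : u ≠ w := by
    rintro rfl
    exact hu hw
  have hvw : v ≠ w := by
    rintro rfl
    exact hv hw
  rw [← E_sub]
  have e1 : (fun σ : Tour n => qm p (Cs σ u v S T) (Z σ u v S) -
      qm p (Cs σ u v S (insert w T)) (Z σ u v S)) =
      fun σ => (bi (bt σ u w) - bi (bt σ v w)) *
        dl p w (Cs σ u v (S.erase w) T) (Z σ u v (S.erase w)) := by
    funext σ
    exact hyb_point σ u v S T w hw hwT
  rw [e1]
  have hP : ∀ a b : Fin n, (((a = u ∨ a = v) ∧ b = w) ∨ (a = w ∧ (b = u ∨ b = v))) →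
      (((b = u ∨ b = v) ∧ a = w) ∨ (b = w ∧ (a = u ∨ a = v))) := by
    intro a b h
    tauto
  have hE := E_ind (fun a b => ((a = u ∨ a = v) ∧ b = w) ∨ (a = w ∧ (b = u ∨ b = v))) p
    (fun σ => bi (bt σ u w) - bi (bt σ v w))
    (fun σ => dl p w (Cs σ u v (S.erase w) T) (Z σ u v (S.erase w))) (by
      intro σ τ
      show bi (bt (mrg _ σ τ) u w) - bi (bt (mrg _ σ τ) v w) = _
      rw [bt_mrg _ hP, bt_mrg _ hP, if_pos (Or.inl ⟨Or.inl rfl, rfl⟩),
        if_pos (Or.inl ⟨Or.inr rfl, rfl⟩)]) (by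
      intro σ τ
      have hx : ∀ y ∈ S.erase w, ¬ (((u = u ∨ u = v) ∧ y = w) ∨ (u = w ∧ (y = u ∨ y = v))) := by
        rintro y hy (⟨_, h⟩ | ⟨h, _⟩)
        · exact Finset.ne_of_mem_erase hy h
        · exact huw h
      have hx' : ∀ y ∈ S.erase w, ¬ (((v = u ∨ v = v) ∧ y = w) ∨ (v = w ∧ (y = u ∨ y = v))) := by
        rintro y hy (⟨_, h⟩ | ⟨h, _⟩)
        · exact Finset.ne_of_mem_erase hy h
        · exact hvw h
      have c1 : Cs (mrg (fun a b => ((a = u ∨ a = v) ∧ b = w) ∨ (a = w ∧ (b = u ∨ b = v))) σ τ)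
          u v (S.erase w) T = Cs τ u v (S.erase w) T := by
        unfold Cs
        refine Finset.filter_congr fun y hy => ?_
        rw [bt_mrg _ hP, bt_mrg _ hP, if_neg (hx y hy), if_neg (hx' y hy)]
      have c2 : Z (mrg (fun a b => ((a = u ∨ a = v) ∧ b = w) ∨ (a = w ∧ (b = u ∨ b = v))) σ τ)
          u v (S.erase w) = Z τ u v (S.erase w) := by
        unfold Z
        refine Finset.filter_congr fun y hy => ?_
        rw [bt_mrg _ hP, bt_mrg _ hP, if_neg (hx y hy), if_neg (hx' y hy)]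
      show dl p w _ _ = dl p w _ _
      rw [c1, c2])
  rw [hE, E_sub, E_bi p huw, E_bi p hvw]
  have hb : |E p (fun σ => dl p w (Cs σ u v (S.erase w) T) (Z σ u v (S.erase w)))| ≤
      (A / 3) * (1 - ∏ j ∈ S.erase w, pw p u j) := by
    have h1 : E p (fun σ : Tour n => (A / 3) * (1 - pr σ u (S.erase w))) =
        (A / 3) * (1 - ∏ j ∈ S.erase w, pw p u j) := by
      rw [E_mul, E_sub, E_const, pr_E u _ (fun h => hu (Finset.mem_of_mem_erase h))]
    rw [← h1, abs_le]
    constructor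
    · have h2 : E p (fun σ : Tour n => (-1) * ((A / 3) * (1 - pr σ u (S.erase w)))) ≤
          E p (fun σ => dl p w (Cs σ u v (S.erase w) T) (Z σ u v (S.erase w))) := by
        refine E_mono q0 q1 fun σ => ?_
        have := (abs_le.mp (dl_pr hA hA0 hp σ u v (S.erase w) T w
          (Finset.notMem_erase w S))).1
        linarith
      rw [E_mul] at h2
      linarith
    · refine E_mono q0 q1 fun σ => ?_
      exact (abs_le.mp (dl_pr hA hA0 hp σ u v (S.erase w) T w (Finset.notMem_erase w S))).2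
  calc (pw p u w - pw p v w) *
        E p (fun σ => dl p w (Cs σ u v (S.erase w) T) (Z σ u v (S.erase w)))
      ≤ |(pw p u w - pw p v w) *
        E p (fun σ => dl p w (Cs σ u v (S.erase w) T) (Z σ u v (S.erase w)))| := le_abs_self _
    _ = |pw p u w - pw p v w| *
        |E p (fun σ => dl p w (Cs σ u v (S.erase w) T) (Z σ u v (S.erase w)))| := abs_mul _ _
    _ ≤ |pw p u w - pw p v w| * ((A / 3) * (1 - ∏ j ∈ S.erase w, pw p u j)) :=
        mul_le_mul_of_nonneg_left hb (abs_nonneg _)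
    _ = _ := by ring

lemma hyb (hA : A ≤ 1) (hA0 : 1 / 2 ≤ A) (hp : ∀ x, 1 - A ≤ p x ∧ p x ≤ A)
    (u v : Fin n) (huv : u ≠ v) (S : Finset (Fin n)) (hu : u ∉ S) (hv : v ∉ S)
    (T : Finset (Fin n)) (hT : T ⊆ S) :
    E p (fun σ => qm p (Cs σ u v S ∅) (Z σ u v S)) -
      E p (fun σ => qm p (Cs σ u v S T) (Z σ u v S)) ≤
      (A / 3) * ∑ w ∈ T, |pw p u w - pw p v w| * (1 - ∏ j ∈ S.erase w, pw p u j) := by
  induction T using Finset.induction_on with
  | empty => simp
  | insert w T hw ih =>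
    have h1 := ih (fun x hx => hT (Finset.mem_insert_of_mem hx))
    have h2 := hyb_step hA hA0 hp u v huv S T hu hv w (hT (Finset.mem_insert_self _ _)) hw
    rw [Finset.sum_insert hw, mul_add]
    linarith

lemma E_X (u v : Fin n) (S : Finset (Fin n)) (hu : u ∉ S) (hv : v ∉ S) :
    E p (fun D => X D u v S) = E p (fun σ => qm p (W σ u v S) (Z σ u v S)) := by
  have hP : ∀ a b : Fin n, ((a = u ∨ a = v) ∨ (b = u ∨ b = v)) →
      ((b = u ∨ b = v) ∨ (a = u ∨ a = v)) := fun a b => Or.symm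
  rw [E_mrg (fun a b => (a = u ∨ a = v) ∨ (b = u ∨ b = v))]
  unfold qm
  congr 1
  funext σ
  congr 1
  funext τ
  unfold X
  have c1 : W (mrg (fun a b => (a = u ∨ a = v) ∨ (b = u ∨ b = v)) σ τ) u v S = W σ u v S :=
    W_congr (fun w _ => by rw [bt_mrg _ hP, if_pos (Or.inl (Or.inl rfl))])
      (fun w _ => by rw [bt_mrg _ hP, if_pos (Or.inl (Or.inr rfl))])
  have c2 : Z (mrg (fun a b => (a = u ∨ a = v) ∨ (b = u ∨ b = v)) σ τ) u v S = Z σ u v S :=
    Z_congr (fun w _ => by rw [bt_mrg _ hP, if_pos (Or.inl (Or.inl rfl))])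
      (fun w _ => by rw [bt_mrg _ hP, if_pos (Or.inl (Or.inr rfl))])
  rw [c1, c2]
  refine qd_congr _ _ fun i hi j hj => ?_
  have hi' := WZ_subset σ u v S hi
  have hj' := WZ_subset σ u v S hj
  rw [bt_mrg _ hP, if_neg]
  rintro ((h | h) | (h | h)) <;> subst h
  · exact hu hi'
  · exact hv hi'
  · exact hu hj'
  · exact hv hj'

lemma X_diff (hA : A ≤ 1) (hA0 : 1 / 2 ≤ A) (hp : ∀ x, 1 - A ≤ p x ∧ p x ≤ A)
    (u v : Fin n) (huv : u ≠ v) (S : Finset (Fin n)) (hu : u ∉ S) (hv : v ∉ S) :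
    E p (fun D => X D u v S) - E p (fun D => X D v u S) ≤
      (A / 3) * ∑ w ∈ S, |pw p u w - pw p v w| * (1 - ∏ j ∈ S.erase w, pw p u j) := by
  have h := hyb hA hA0 hp u v huv S hu hv S (Finset.Subset.refl S)
  rw [E_X u v S hu hv, E_X v u S hv hu]
  simp only [Cs_empty, Cs_full] at h
  simp only [Z_swap]
  exact h

end Pool.Agent.R4400
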