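import Mathlib

set_option autoImplicit false
set_option linter.unusedSectionVars false

open Finset

namespace Pool.Agent.R4400

variable {κ : Type} [DecidableEq κ]

lemma vert (S : Finset κ) (B A c : ℝ) (hBA : B ≤ A) (F : (κ → ℝ) → ℝ)
    (hF : ∀ x : κ → ℝ, (∀ i ∈ S, B ≤ x i ∧ x i ≤ A) → ∀ i ∈ S,
      F x ≤ max (F (Function.update x i A)) (F (Function.update x i B)))
    (hv : ∀ x : κ → ℝ, (∀ i ∈ S, x i = A ∨ x i = B) → F x ≤ c) :
    ∀ x : κ → ℝ, (∀ i ∈ S, B ≤ x i ∧ x i ≤ A) → F x ≤ c := by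
  classical
  intro x hx
  induction hn : (S.filter (fun i => ¬ (x i = A ∨ x i = B))).card using
    Nat.strong_induction_on generalizing x with
  | _ N ih =>
    by_cases h : ∀ i ∈ S, x i = A ∨ x i = B
    · exact hv x h
    · push Not at h
      obtain ⟨i, hi, hiA, hiB⟩ := h
      have hupd : ∀ t, (t = A ∨ t = B) → F (Function.update x i t) ≤ c := by
        intro t ht
        refine ih _ ?_ (Function.update x i t) ?_ rfl
        · rw [← hn]
          refine Finset.card_lt_card (Finset.ssubset_iff_subset_ne.mpr ⟨?_, ?_⟩)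
          · intro j hj
            rw [Finset.mem_filter] at hj ⊢
            refine ⟨hj.1, ?_⟩
            by_cases hji : j = i
            · subst hji
              exact fun h => h.elim hiA hiB
            · have h2 := hj.2
              rw [Function.update_of_ne hji] at h2
              exact h2
          · intro he
            have h1 : i ∈ S.filter (fun j => ¬ (x j = A ∨ x j = B)) := by
              rw [Finset.mem_filter]
              exact ⟨hi, fun h => h.elim hiA hiB⟩
            rw [← he, Finset.mem_filter, Function.update_self] at h1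
            exact h1.2 ht
        · intro j hj
          by_cases hji : j = i
          · subst hji
            rw [Function.update_self]
            rcases ht with rfl | rfl
            · exact ⟨hBA, le_refl _⟩
            · exact ⟨le_refl _, hBA⟩
          · rw [Function.update_of_ne hji]
            exact hx j hj
      exact le_trans (hF x hx i hi) (max_le (hupd A (Or.inl rfl)) (hupd B (Or.inr rfl)))

lemma conv1 (B A t α β γ d : ℝ) (h1 : B ≤ t) (h2 : t ≤ A) (hγ : 0 ≤ γ) :
    α + β * t + γ * |t - d| ≤ max (α + β * A + γ * |A - d|) (α + β * B + γ * |B - d|) := by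
  rcases eq_or_lt_of_le (le_trans h1 h2) with h | h
  · have : t = A := by linarith
    subst this
    exact le_max_left _ _
  · set lam := (t - B) / (A - B) with hlam
    have hAB : 0 < A - B := by linarith
    have hl0 : 0 ≤ lam := div_nonneg (by linarith) hAB.le
    have hl1 : lam ≤ 1 := by
      rw [hlam, div_le_one hAB]
      linarith
    have ht : t = lam * A + (1 - lam) * B := by
      rw [hlam]
      field_simp
      ring
    have h3 : |t - d| ≤ lam * |A - d| + (1 - lam) * |B - d| := by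
      have e : t - d = lam * (A - d) + (1 - lam) * (B - d) := by
        rw [ht]
        ring
      rw [e]
      refine le_trans (abs_add_le _ _) ?_
      rw [abs_mul, abs_mul, abs_of_nonneg hl0, abs_of_nonneg (by linarith : 0 ≤ 1 - lam)]
    have h4 : α + β * t + γ * |t - d| ≤
        lam * (α + β * A + γ * |A - d|) + (1 - lam) * (α + β * B + γ * |B - d|) := by
      have := mul_le_mul_of_nonneg_left h3 hγ
      have e : β * t = lam * (β * A) + (1 - lam) * (β * B) := by
        rw [ht]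
        ring
      rw [e]
      nlinarith [this]
    have h5 := le_max_left (α + β * A + γ * |A - d|) (α + β * B + γ * |B - d|)
    have h6 := le_max_right (α + β * A + γ * |A - d|) (α + β * B + γ * |B - d|)
    have h7 := mul_le_mul_of_nonneg_left h5 hl0
    have h8 := mul_le_mul_of_nonneg_left h6 (by linarith : 0 ≤ 1 - lam)
    linarith

/-- the left side of the final inequality -/
noncomputable def Fn (A : ℝ) (S : Finset κ) (a b : κ → ℝ) : ℝ :=
  3 * (∏ w ∈ S, a w - ∏ w ∈ S, b w) +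
    A * ∑ w ∈ S, |a w - b w| * (1 - ∏ j ∈ S.erase w, a j) +
    (2 * A - 1) * ∑ w ∈ S, a w * b w

lemma prod_upd (S : Finset κ) (x : κ → ℝ) (i : κ) (hi : i ∈ S) (t : ℝ) :
    ∏ w ∈ S, Function.update x i t w = t * ∏ w ∈ S.erase i, x w := by
  rw [← Finset.mul_prod_erase S _ hi, Function.update_self]
  congr 1
  refine Finset.prod_congr rfl fun j hj => ?_
  rw [Function.update_of_ne (Finset.ne_of_mem_erase hj)]

lemma prod_upd' (S : Finset κ) (x : κ → ℝ) (i : κ) (hi : i ∉ S) (t : ℝ) :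
    ∏ w ∈ S, Function.update x i t w = ∏ w ∈ S, x w := by
  refine Finset.prod_congr rfl fun j hj => ?_
  rw [Function.update_of_ne]
  rintro rfl
  exact hi hj

lemma prod_le_one' {S : Finset κ} {A : ℝ} (hA : A ≤ 1) {x : κ → ℝ}
    (hx : ∀ i ∈ S, 0 ≤ x i ∧ x i ≤ A) : ∏ w ∈ S, x w ≤ 1 :=
  Finset.prod_le_one (fun i hi => (hx i hi).1) (fun i hi => le_trans (hx i hi).2 hA)

lemma Fn_conv_a (A : ℝ) (hA : A ≤ 1) (hA0 : 1 / 2 ≤ A) (S : Finset κ) (b : κ → ℝ) (x : κ → ℝ)
    (hx : ∀ i ∈ S, 1 - A ≤ x i ∧ x i ≤ A) (i : κ) (hi : i ∈ S) :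
    Fn A S x b ≤ max (Fn A S (Function.update x i A) b) (Fn A S (Function.update x i (1 - A)) b) := by
  have key : ∀ t : ℝ, Fn A S (Function.update x i t) b =
      (- 3 * ∏ w ∈ S, b w + A * ∑ w ∈ S.erase i, |x w - b w| +
        (2 * A - 1) * ∑ w ∈ S.erase i, x w * b w) +
      (3 * ∏ w ∈ S.erase i, x w
        - A * ∑ w ∈ S.erase i, |x w - b w| * ∏ j ∈ (S.erase w).erase i, x j
        + (2 * A - 1) * b i) * t +
      (A * (1 - ∏ j ∈ S.erase i, x j)) * |t - b i| := by
    intro t
    unfold Fn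
    rw [prod_upd S x i hi t]
    rw [← Finset.add_sum_erase S (fun w => |Function.update x i t w - b w| *
      (1 - ∏ j ∈ S.erase w, Function.update x i t j)) hi]
    rw [← Finset.add_sum_erase S (fun w => Function.update x i t w * b w) hi]
    rw [Function.update_self, prod_upd' _ x i (Finset.notMem_erase i S) t]
    have e1 : ∑ w ∈ S.erase i, |Function.update x i t w - b w| *
        (1 - ∏ j ∈ S.erase w, Function.update x i t j) =
        ∑ w ∈ S.erase i, |x w - b w| -
          t * ∑ w ∈ S.erase i, |x w - b w| * ∏ j ∈ (S.erase w).erase i, x j := by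
      rw [Finset.mul_sum, ← Finset.sum_sub_distrib]
      refine Finset.sum_congr rfl fun w hw => ?_
      have hwi := Finset.ne_of_mem_erase hw
      rw [Function.update_of_ne hwi, prod_upd (S.erase w) x i
        (Finset.mem_erase.mpr ⟨hwi.symm, hi⟩) t]
      ring
    have e2 : ∑ w ∈ S.erase i, Function.update x i t w * b w = ∑ w ∈ S.erase i, x w * b w := by
      refine Finset.sum_congr rfl fun w hw => ?_
      rw [Function.update_of_ne (Finset.ne_of_mem_erase hw)]
    rw [e1, e2]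
    ring
  have h0 := key (x i)
  rw [Function.update_eq_self] at h0
  rw [h0, key A, key (1 - A)]
  refine conv1 (1 - A) A (x i) _ _ _ (b i) (hx i hi).1 (hx i hi).2 ?_
  have h1 : ∏ j ∈ S.erase i, x j ≤ 1 := prod_le_one' hA fun j hj =>
    ⟨by linarith [(hx j (Finset.mem_of_mem_erase hj)).1], (hx j (Finset.mem_of_mem_erase hj)).2⟩
  exact mul_nonneg (by linarith) (by linarith)

lemma Fn_conv_b (A : ℝ) (hA : A ≤ 1) (hA0 : 1 / 2 ≤ A) (S : Finset κ) (a : κ → ℝ)
    (ha : ∀ i ∈ S, 1 - A ≤ a i ∧ a i ≤ A) (x : κ → ℝ)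
    (hx : ∀ i ∈ S, 1 - A ≤ x i ∧ x i ≤ A) (i : κ) (hi : i ∈ S) :
    Fn A S a x ≤ max (Fn A S a (Function.update x i A)) (Fn A S a (Function.update x i (1 - A))) := by
  have key : ∀ t : ℝ, Fn A S a (Function.update x i t) =
      (3 * ∏ w ∈ S, a w +
        A * ∑ w ∈ S.erase i, |a w - x w| * (1 - ∏ j ∈ S.erase w, a j) +
        (2 * A - 1) * ∑ w ∈ S.erase i, a w * x w) +
      (- 3 * ∏ w ∈ S.erase i, x w + (2 * A - 1) * a i) * t +
      (A * (1 - ∏ j ∈ S.erase i, a j)) * |t - a i| := by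
    intro t
    unfold Fn
    rw [prod_upd S x i hi t]
    rw [← Finset.add_sum_erase S (fun w => |a w - Function.update x i t w| *
      (1 - ∏ j ∈ S.erase w, a j)) hi]
    rw [← Finset.add_sum_erase S (fun w => a w * Function.update x i t w) hi]
    rw [Function.update_self]
    have e1 : ∑ w ∈ S.erase i, |a w - Function.update x i t w| * (1 - ∏ j ∈ S.erase w, a j) =
        ∑ w ∈ S.erase i, |a w - x w| * (1 - ∏ j ∈ S.erase w, a j) := by
      refine Finset.sum_congr rfl fun w hw => ?_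
      rw [Function.update_of_ne (Finset.ne_of_mem_erase hw)]
    have e2 : ∑ w ∈ S.erase i, a w * Function.update x i t w = ∑ w ∈ S.erase i, a w * x w := by
      refine Finset.sum_congr rfl fun w hw => ?_
      rw [Function.update_of_ne (Finset.ne_of_mem_erase hw)]
    rw [e1, e2, abs_sub_comm (a i) t]
    ring
  have h0 := key (x i)
  rw [Function.update_eq_self] at h0
  rw [h0, key A, key (1 - A)]
  refine conv1 (1 - A) A (x i) _ _ _ (a i) (hx i hi).1 (hx i hi).2 ?_
  have h1 : ∏ j ∈ S.erase i, a j ≤ 1 := prod_le_one' hA fun j hj =>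
    ⟨by linarith [(ha j (Finset.mem_of_mem_erase hj)).1], (ha j (Finset.mem_of_mem_erase hj)).2⟩
  exact mul_nonneg (by linarith) (by linarith)

lemma prod_diff (A : ℝ) (hA : A ≤ 1) (hA0 : 1 / 2 ≤ A) (a b : κ → ℝ) (S : Finset κ)
    (ha : ∀ i ∈ S, 1 - A ≤ a i ∧ a i ≤ A) (hb : ∀ i ∈ S, 1 - A ≤ b i ∧ b i ≤ A) :
    ∏ w ∈ S, a w - ∏ w ∈ S, b w ≤ 2 * A - 1 := by
  induction S using Finset.induction_on with
  | empty => simp; linarith
  | insert w T hw ih =>
    have ha' : ∀ i ∈ T, 1 - A ≤ a i ∧ a i ≤ A := fun i hi => ha i (Finset.mem_insert_of_mem hi)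
    have hb' : ∀ i ∈ T, 1 - A ≤ b i ∧ b i ≤ A := fun i hi => hb i (Finset.mem_insert_of_mem hi)
    have ih' := ih ha' hb'
    have haw := ha w (Finset.mem_insert_self _ _)
    have hbw := hb w (Finset.mem_insert_self _ _)
    rw [Finset.prod_insert hw, Finset.prod_insert hw]
    have hP0 : 0 ≤ ∏ i ∈ T, a i := Finset.prod_nonneg fun i hi => by linarith [(ha' i hi).1]
    have hQ0 : 0 ≤ ∏ i ∈ T, b i := Finset.prod_nonneg fun i hi => by linarith [(hb' i hi).1]
    rcases Finset.eq_empty_or_nonempty T with h | ⟨j, hj⟩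
    · subst h
      simp only [Finset.prod_empty, mul_one]
      linarith [haw.2, hbw.1]
    · have hPA : ∏ i ∈ T, a i ≤ A := by
        rw [← Finset.mul_prod_erase T _ hj]
        have h1 : ∏ i ∈ T.erase j, a i ≤ 1 := prod_le_one' hA fun i hi =>
          ⟨by linarith [(ha' i (Finset.mem_of_mem_erase hi)).1],
            (ha' i (Finset.mem_of_mem_erase hi)).2⟩
        have h2 : 0 ≤ ∏ i ∈ T.erase j, a i :=
          Finset.prod_nonneg fun i hi => by linarith [(ha' i (Finset.mem_of_mem_erase hi)).1]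
        have h3 := ha' j hj
        nlinarith [h3.1, h3.2]
      set P := ∏ i ∈ T, a i with hP
      set Q := ∏ i ∈ T, b i with hQ
      have e1 : a w * P ≤ A * P := mul_le_mul_of_nonneg_right haw.2 hP0
      have e2 : (1 - A) * Q ≤ b w * Q := mul_le_mul_of_nonneg_right hbw.1 hQ0
      have e3 : (1 - A) * (P - Q) ≤ (1 - A) * (2 * A - 1) :=
        mul_le_mul_of_nonneg_left ih' (by linarith)
      have e4 : (2 * A - 1) * P ≤ (2 * A - 1) * A := mul_le_mul_of_nonneg_left hPA (by linarith)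
      nlinarith

lemma brack_nonneg (A : ℝ) (hA : A ≤ 1) (hA0 : 1 / 2 ≤ A) (x y P : ℝ)
    (hx : x = A ∨ x = 1 - A) (hy : y = A ∨ y = 1 - A) (hP : 0 ≤ P) :
    A * (|x - y| * (1 - P)) + (2 * A - 1) * (x * y) ≤ 2 * A - 1 := by
  have hs : 0 ≤ 2 * A - 1 := by linarith
  have hAP : 0 ≤ A * P := mul_nonneg (by linarith) hP
  rcases hx with h | h <;> rcases hy with h' | h' <;> rw [h, h']
  · rw [sub_self, abs_zero]
    have : A * A ≤ 1 := by nlinarith
    nlinarith
  · rw [show A - (1 - A) = 2 * A - 1 by ring, abs_of_nonneg hs]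
    have h1 : A * ((2 * A - 1) * (1 - P)) + (2 * A - 1) * (A * (1 - A)) =
        (2 * A - 1) * (1 - (1 - A) ^ 2 - A * P) := by ring
    rw [h1]
    have h2 : 1 - (1 - A) ^ 2 - A * P ≤ 1 := by nlinarith [sq_nonneg (1 - A)]
    nlinarith
  · rw [show 1 - A - A = -(2 * A - 1) by ring, abs_neg, abs_of_nonneg hs]
    have h1 : A * ((2 * A - 1) * (1 - P)) + (2 * A - 1) * ((1 - A) * A) =
        (2 * A - 1) * (1 - (1 - A) ^ 2 - A * P) := by ring
    rw [h1]
    have h2 : 1 - (1 - A) ^ 2 - A * P ≤ 1 := by nlinarith [sq_nonneg (1 - A)]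
    nlinarith
  · rw [sub_self, abs_zero]
    have : (1 - A) * (1 - A) ≤ 1 := by nlinarith
    nlinarith

/-- the pure power inequality -/
lemma power_ineq (A : ℝ) (hA : A ≤ 1) (hA0 : 1 / 2 ≤ A) (j k : ℕ) (hm : 2 ≤ j + k) :
    3 * (A ^ j * (A ^ k - (1 - A) ^ k)) ≤
      (2 * A - 1) * (2 + j * (1 - A ^ 2) + k * ((1 - A) ^ 2 + A ^ (j + k))) := by
  have hs : 0 ≤ 2 * A - 1 := by linarith
  have hA1 : 0 ≤ A := by linarith
  have hj0 : 0 ≤ A ^ j := by positivity
  have hj1 : A ^ j ≤ 1 := pow_le_one₀ hA1 hA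
  have hsq : A ^ 2 ≤ 1 := pow_le_one₀ hA1 hA
  match k, hm with
  | 0, hm =>
    simp only [pow_zero, sub_self, mul_zero, Nat.cast_zero, zero_mul, add_zero]
    refine mul_nonneg hs ?_
    have : (0 : ℝ) ≤ j * (1 - A ^ 2) := mul_nonneg (by positivity) (by linarith)
    linarith
  | 1, hm =>
    obtain ⟨i, rfl⟩ : ∃ i, j = i + 1 := ⟨j - 1, by omega⟩
    have h1 : A ^ (i + 1) ≤ A := by
      have := pow_le_pow_of_le_one hA1 hA (by omega : 1 ≤ i + 1)
      simpa using this
    have e : 3 * (A ^ (i + 1) * (A ^ 1 - (1 - A) ^ 1)) = (2 * A - 1) * (3 * A ^ (i + 1)) := by ring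
    rw [e]
    refine mul_le_mul_of_nonneg_left ?_ hs
    have h2 : (0 : ℝ) ≤ ((i + 1 : ℕ) : ℝ) * (1 - A ^ 2) := mul_nonneg (by positivity) (by linarith)
    have h3 : A ^ (i + 1 + 1) = A ^ (i + 1) * A := by ring
    rw [h3]
    push_cast
    push_cast at h2
    have h4 : A ^ (i + 1) * (3 - A) ≤ A * (3 - A) :=
      mul_le_mul_of_nonneg_right h1 (by linarith)
    nlinarith [mul_nonneg (by linarith : 0 ≤ 1 - A) (by linarith : 0 ≤ 2 - A), sq_nonneg (1 - A)]
  | 2, hm =>
    have e : 3 * (A ^ j * (A ^ 2 - (1 - A) ^ 2)) = (2 * A - 1) * (3 * A ^ j) := by ring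
    rw [e]
    refine mul_le_mul_of_nonneg_left ?_ hs
    have h2 : (0 : ℝ) ≤ (j : ℝ) * (1 - A ^ 2) := mul_nonneg (by positivity) (by linarith)
    have h3 : A ^ (j + 2) = A ^ j * A ^ 2 := by ring
    rw [h3]
    push_cast
    have h4 : A ^ j * (3 - 2 * A ^ 2) ≤ 1 * (3 - 2 * A ^ 2) :=
      mul_le_mul_of_nonneg_right hj1 (by nlinarith)
    nlinarith [sq_nonneg (2 * A - 1)]
  | (k + 3), hm =>
    have hB : 0 ≤ 1 - A := by linarith
    -- A^(k+2) - B^(k+2) ≤ s
    have hd : ∀ r : ℕ, A ^ (r + 1) - (1 - A) ^ (r + 1) ≤ 2 * A - 1 := by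
      intro r
      induction r with
      | zero => simp; linarith
      | succ r ih =>
        have e : A ^ (r + 1 + 1) - (1 - A) ^ (r + 1 + 1) =
            (2 * A - 1) * A ^ (r + 1) + (1 - A) * (A ^ (r + 1) - (1 - A) ^ (r + 1)) := by ring
        rw [e]
        have h1 : A ^ (r + 1) ≤ A := by
          have := pow_le_pow_of_le_one hA1 hA (by omega : 1 ≤ r + 1)
          simpa using this
        have h2 := mul_le_mul_of_nonneg_left h1 hs
        have h3 := mul_le_mul_of_nonneg_left ih hB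
        nlinarith
    have h1 : A ^ (k + 3) - (1 - A) ^ (k + 3) ≤ (2 * A - 1) * (A ^ (k + 2) + (1 - A)) := by
      have e : A ^ (k + 3) - (1 - A) ^ (k + 3) =
          (2 * A - 1) * A ^ (k + 2) + (1 - A) * (A ^ (k + 2) - (1 - A) ^ (k + 2)) := by ring
      rw [e]
      have h3 := mul_le_mul_of_nonneg_left (hd (k + 1)) hB
      nlinarith
    have h2 : 3 * (A ^ j * (A ^ (k + 3) - (1 - A) ^ (k + 3))) ≤
        (2 * A - 1) * (3 * (A ^ j * (A ^ (k + 2) + (1 - A)))) := by
      have := mul_le_mul_of_nonneg_left h1 hj0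
      nlinarith
    refine le_trans h2 (mul_le_mul_of_nonneg_left ?_ hs)
    have h3 : (0 : ℝ) ≤ (j : ℝ) * (1 - A ^ 2) := mul_nonneg (by positivity) (by linarith)
    have h4 : A ^ (j + (k + 3)) = A ^ j * (A ^ (k + 2) * A) := by ring
    have h5 : (3 : ℝ) * A ^ (j + (k + 3)) ≤
        ((k + 3 : ℕ) : ℝ) * ((1 - A) ^ 2 + A ^ (j + (k + 3))) := by
      push_cast
      have h6 : (0 : ℝ) ≤ k := by positivity
      have h7 : 0 ≤ A ^ (j + (k + 3)) := by positivity
      nlinarith [mul_nonneg h6 h7, mul_nonneg h6 (sq_nonneg (1 - A)), sq_nonneg (1 - A)]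
    have h6 : A ^ (k + 2) ≤ A ^ 2 := pow_le_pow_of_le_one hA1 hA (by omega)
    have h7 : 3 * (A ^ j * (A ^ (k + 2) + (1 - A))) - 3 * A ^ (j + (k + 3)) ≤ 2 := by
      rw [h4]
      have e : 3 * (A ^ j * (A ^ (k + 2) + (1 - A))) - 3 * (A ^ j * (A ^ (k + 2) * A)) =
          A ^ j * (3 * (1 - A) * (A ^ (k + 2) + 1)) := by ring
      rw [e]
      have h8 : 3 * (1 - A) * (A ^ (k + 2) + 1) ≤ 2 := by
        have h9 : 3 * (1 - A) * (A ^ (k + 2) + 1) ≤ 3 * (1 - A) * (A ^ 2 + 1) :=
          mul_le_mul_of_nonneg_left (by linarith) (by linarith)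
        nlinarith [mul_nonneg (by linarith : 0 ≤ A - 1 / 2) hB, mul_nonneg (mul_nonneg (by linarith : 0 ≤ A - 1 / 2) hB) hA1, mul_nonneg (by linarith : 0 ≤ A - 1 / 2) (sq_nonneg (A - 1 / 2))]
      have h10 : 0 ≤ 3 * (1 - A) * (A ^ (k + 2) + 1) := by positivity
      nlinarith
    linarith

theorem final (A : ℝ) (hA : A ≤ 1) (hA0 : 1 / 2 ≤ A) (S : Finset κ) (hS : 2 ≤ S.card)
    (a b : κ → ℝ) (ha : ∀ i ∈ S, 1 - A ≤ a i ∧ a i ≤ A) (hb : ∀ i ∈ S, 1 - A ≤ b i ∧ b i ≤ A) :
    Fn A S a b ≤ (S.card + 2) * (2 * A - 1) := by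
  have hs : 0 ≤ 2 * A - 1 := by linarith
  have hBA : 1 - A ≤ A := by linarith
  refine vert S (1 - A) A ((S.card + 2) * (2 * A - 1)) hBA (fun x => Fn A S x b)
    (fun x hx i hi => Fn_conv_a A hA hA0 S b x hx i hi) ?_ a ha
  intro a hva
  have ha' : ∀ i ∈ S, 1 - A ≤ a i ∧ a i ≤ A := by
    intro i hi
    rcases hva i hi with h | h <;> rw [h] <;> constructor <;> linarith
  refine vert S (1 - A) A ((S.card + 2) * (2 * A - 1)) hBA (fun x => Fn A S a x)
    (fun x hx i hi => Fn_conv_b A hA hA0 S a ha' x hx i hi) ?_ b hb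
  intro b hvb
  have hb' : ∀ i ∈ S, 1 - A ≤ b i ∧ b i ≤ A := by
    intro i hi
    rcases hvb i hi with h | h <;> rw [h] <;> constructor <;> linarith
  show Fn A S a b ≤ (S.card + 2) * (2 * A - 1)
  have hFn : Fn A S a b = 3 * (∏ w ∈ S, a w - ∏ w ∈ S, b w) +
      ∑ w ∈ S, (A * (|a w - b w| * (1 - ∏ j ∈ S.erase w, a j)) + (2 * A - 1) * (a w * b w)) := by
    unfold Fn
    rw [Finset.sum_add_distrib, Finset.mul_sum, Finset.mul_sum]
    ring
  by_cases hw : ∃ w0 ∈ S, a w0 = 1 - A
  · obtain ⟨w0, hw0, haw0⟩ := hw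
    have h1 : ∏ w ∈ S, a w - ∏ w ∈ S, b w ≤ (1 - A) * (2 * A - 1) := by
      rw [← Finset.mul_prod_erase S _ hw0, ← Finset.mul_prod_erase S (fun w => b w) hw0, haw0]
      have h2 := prod_diff A hA hA0 a b (S.erase w0)
        (fun i hi => ha' i (Finset.mem_of_mem_erase hi))
        (fun i hi => hb' i (Finset.mem_of_mem_erase hi))
      have h3 : 0 ≤ ∏ w ∈ S.erase w0, b w :=
        Finset.prod_nonneg fun i hi => by linarith [(hb' i (Finset.mem_of_mem_erase hi)).1]
      have h4 := mul_le_mul_of_nonneg_right (hb' w0 hw0).1 h3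
      have h5 := mul_le_mul_of_nonneg_left h2 (by linarith : 0 ≤ 1 - A)
      linarith
    have h2 : ∑ w ∈ S, (A * (|a w - b w| * (1 - ∏ j ∈ S.erase w, a j)) +
        (2 * A - 1) * (a w * b w)) ≤ ∑ _w ∈ S, (2 * A - 1) := by
      refine Finset.sum_le_sum fun w hw => ?_
      refine brack_nonneg A hA hA0 _ _ _ (hva w hw) (hvb w hw) ?_
      exact Finset.prod_nonneg fun i hi => by linarith [(ha' i (Finset.mem_of_mem_erase hi)).1]
    rw [Finset.sum_const, nsmul_eq_mul] at h2
    rw [hFn]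
    nlinarith
  · push Not at hw
    have haA : ∀ w ∈ S, a w = A := fun w hw' => (hva w hw').resolve_right (hw w hw')
    have e1 : ∏ w ∈ S, a w = A ^ S.card := by
      rw [Finset.prod_congr rfl haA, Finset.prod_const]
    classical
    set K := S.filter (fun w => b w = 1 - A) with hK
    set J := S.filter (fun w => ¬ b w = 1 - A) with hJ
    have hcard : J.card + K.card = S.card := by
      rw [add_comm]
      exact Finset.card_filter_add_card_filter_not _
    have e2 : ∏ w ∈ S, b w = A ^ J.card * (1 - A) ^ K.card := by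
      rw [← Finset.prod_filter_mul_prod_filter_not S (fun w => b w = 1 - A)]
      rw [mul_comm]
      congr 1
      · rw [← Finset.prod_const]
        refine Finset.prod_congr rfl fun w hw' => ?_
        have h1 := Finset.mem_filter.mp hw'
        exact (hvb w h1.1).resolve_right h1.2
      · rw [← Finset.prod_const]
        refine Finset.prod_congr rfl fun w hw' => ?_
        exact (Finset.mem_filter.mp hw').2
    have e3 : ∑ w ∈ S, (A * (|a w - b w| * (1 - ∏ j ∈ S.erase w, a j)) +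
        (2 * A - 1) * (a w * b w)) = ∑ w ∈ S, (if b w = 1 - A then
          (2 * A - 1) * (1 - ((1 - A) ^ 2 + A ^ S.card)) else (2 * A - 1) * A ^ 2) := by
      refine Finset.sum_congr rfl fun w hw' => ?_
      have h1 : ∏ j ∈ S.erase w, a j = A ^ (S.card - 1) := by
        rw [Finset.prod_congr rfl (fun j hj => haA j (Finset.mem_of_mem_erase hj)),
          Finset.prod_const, Finset.card_erase_of_mem hw']
      have h2 : A * A ^ (S.card - 1) = A ^ S.card := by
        rw [← pow_succ']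
        congr 1
        omega
      rw [h1, haA w hw', ← h2]
      by_cases hbw : b w = 1 - A
      · rw [if_pos hbw, hbw, show A - (1 - A) = 2 * A - 1 by ring, abs_of_nonneg hs]
        ring
      · rw [if_neg hbw, (hvb w hw').resolve_right hbw, sub_self, abs_zero]
        ring
    rw [hFn, e1, e2, e3, Finset.sum_ite, Finset.sum_const, Finset.sum_const, nsmul_eq_mul,
      nsmul_eq_mul, ← hK, ← hJ]
    have h := power_ineq A hA hA0 J.card K.card (by omega)
    rw [← hcard]
    push_cast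
    rw [pow_add] at h ⊢
    nlinarith [h]

end Pool.Agent.R4400
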