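import Mathlib
import Pool.Agent.R4400.Hyb
import Pool.Agent.R4400.Ineq

set_option autoImplicit false
set_option linter.unusedSectionVars false
set_option linter.unusedVariables false

open Finset

namespace Pool.Agent.R4400

variable {n : ℕ} {A : ℝ} {p : Pair n → ℝ}

/-- expectation of `dd` -/
noncomputable def dm (p : Pair n → ℝ) (u v : Fin n) (S : Finset (Fin n)) : ℝ :=
  E p (fun D => dd D u v S)

lemma dm_swap (u v : Fin n) (S : Finset (Fin n)) : dm p v u S = - dm p u v S := by
  unfold dm
  simp only [dd_swap _ u v S]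
  have h := E_mul p (-1) (fun D => dd D u v S)
  have e : (fun D : Tour n => - dd D u v S) = fun D => -1 * dd D u v S := by
    funext D
    ring
  rw [e, h]
  ring

lemma dm_empty (u v : Fin n) : dm p u v ∅ = 0 := by
  unfold dm
  have e : (fun D : Tour n => dd D u v ∅) = fun _ => (0 : ℝ) := by
    funext D
    have h := dd_rec D u v ∅
    have hX : X D u v ∅ = 1 := by
      unfold X Z
      rw [Finset.filter_empty, qd_empty]
    have hX' : X D v u ∅ = 1 := by
      unfold X Z
      rw [Finset.filter_empty, qd_empty]
    have hp1 : pr D u ∅ = 1 := by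
      unfold pr
      simp
    have hp2 : pr D v ∅ = 1 := by
      unfold pr
      simp
    rw [hX, hX', hp1, hp2, Finset.sum_empty, Finset.card_empty] at h
    push_cast at h
    linarith
  rw [e]
  exact E_const p 0

lemma dm_step (u v w : Fin n) (huw : u ≠ w) (hvw : v ≠ w) (S : Finset (Fin n)) (hu : u ∉ S)
    (hv : v ∉ S) :
    E p (fun D => (if bt D u w = true ∧ bt D v w = true then dd D u v (ft D S w) else 0)) =
      E p (fun σ => (if bt σ u w = true ∧ bt σ v w = true then dm p u v (ft σ S w) else 0)) := by
  have hP : ∀ a b : Fin n, (a = w ∨ b = w) → (b = w ∨ a = w) := fun a b => Or.symm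
  rw [E_mrg (fun a b => a = w ∨ b = w)]
  congr 1
  funext σ
  have e : (fun τ => (if bt (mrg (fun a b => a = w ∨ b = w) σ τ) u w = true ∧
      bt (mrg (fun a b => a = w ∨ b = w) σ τ) v w = true then
      dd (mrg (fun a b => a = w ∨ b = w) σ τ) u v
        (ft (mrg (fun a b => a = w ∨ b = w) σ τ) S w) else 0)) =
      fun τ => (if bt σ u w = true ∧ bt σ v w = true then dd τ u v (ft σ S w) else (0 : ℝ)) := by
    funext τ
    rw [bt_mrg _ hP, bt_mrg _ hP, if_pos (Or.inr rfl), if_pos (Or.inr rfl),
      ft_mrg _ hP σ τ S w (fun j _ => Or.inr rfl)]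
    by_cases h : bt σ u w = true ∧ bt σ v w = true
    · rw [if_pos h, if_pos h]
      have hne : ∀ i ∈ ft σ S w, i ≠ w := by
        rintro i hi rfl
        exact ft_not_mem _ _ _ hi
      refine dd_congr _ ?_ ?_ ?_
      · intro x hx
        rw [bt_mrg _ hP, if_neg]
        rintro (h1 | h1)
        · exact huw h1
        · exact hne x hx h1
      · intro x hx
        rw [bt_mrg _ hP, if_neg]
        rintro (h1 | h1)
        · exact hvw h1
        · exact hne x hx h1
      · intro i hi j hj
        rw [bt_mrg _ hP, if_neg]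
        rintro (h1 | h1)
        · exact hne i hi h1
        · exact hne j hj h1
    · rw [if_neg h, if_neg h]
  rw [e]
  by_cases h : bt σ u w = true ∧ bt σ v w = true
  · simp only [if_pos h]
    rfl
  · simp only [if_neg h]
    exact E_const p 0

lemma dm_rec (u v : Fin n) (S : Finset (Fin n)) (hu : u ∉ S) (hv : v ∉ S) :
    (S.card + 2 : ℝ) * dm p u v S =
      E p (fun D => X D u v S) - E p (fun D => X D v u S) + ∏ w ∈ S, pw p u w -
        ∏ w ∈ S, pw p v w +
      ∑ w ∈ S, E p (fun σ => (if bt σ u w = true ∧ bt σ v w = true then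
        dm p u v (ft σ S w) else 0)) := by
  have h1 : ∑ w ∈ S, E p (fun σ => (if bt σ u w = true ∧ bt σ v w = true then
        dm p u v (ft σ S w) else 0)) =
      E p (fun D => ∑ w ∈ S, (if bt D u w = true ∧ bt D v w = true then
        dd D u v (ft D S w) else 0)) := by
    rw [E_sum]
    refine Finset.sum_congr rfl fun w hw => ?_
    refine (dm_step u v w ?_ ?_ S hu hv).symm
    · rintro rfl
      exact hu hw
    · rintro rfl
      exact hv hw
  rw [h1, ← pr_E (p := p) u S hu, ← pr_E (p := p) v S hv, ← E_sub, ← E_add, ← E_sub, ← E_add]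
  unfold dm
  rw [← E_mul]
  congr 1
  funext D
  exact dd_rec D u v S

lemma dm_one (hA : A ≤ 1) (hA0 : 1 / 2 ≤ A) (hp : ∀ x, 1 - A ≤ p x ∧ p x ≤ A)
    (u v w : Fin n) (huv : u ≠ v) (huw : u ≠ w) (hvw : v ≠ w) :
    3 * dm p u v {w} ≤ pw p u w - pw p v w := by
  have h := dm_rec (p := p) u v {w} (by simp [huw]) (by simp [hvw])
  have h2 := X_diff hA hA0 hp u v huv {w} (by simp [huw]) (by simp [hvw])
  rw [Finset.sum_singleton] at h h2
  rw [Finset.erase_singleton, Finset.prod_empty, sub_self, mul_zero, mul_zero] at h2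
  have e : (fun σ : Tour n => (if bt σ u w = true ∧ bt σ v w = true then
        dm p u v (ft σ {w} w) else 0)) = fun _ => (0 : ℝ) := by
    funext σ
    rw [ft_singleton_false (bt_self σ w), dm_empty]
    simp
  rw [e, E_const, Finset.prod_singleton, Finset.prod_singleton, Finset.card_singleton] at h
  push_cast at h
  linarith

theorem dm_bound (hA : A ≤ 1) (hA0 : 1 / 2 ≤ A) (hp : ∀ x, 1 - A ≤ p x ∧ p x ≤ A)
    (u v : Fin n) (huv : u ≠ v) (S : Finset (Fin n)) (hu : u ∉ S) (hv : v ∉ S) :
    dm p u v S ≤ (2 * A - 1) / 3 := by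
  have q0 := p0 hA hp
  have q1 := p1 hA hp
  have hs : 0 ≤ (2 * A - 1) / 3 := by linarith
  induction hn : S.card using Nat.strong_induction_on generalizing S with
  | _ N ih =>
    rcases Nat.lt_or_ge 1 S.card with hS2 | hS1
    · have hrec := dm_rec (p := p) u v S hu hv
      have hX := X_diff hA hA0 hp u v huv S hu hv
      have hT : ∑ w ∈ S, E p (fun σ => (if bt σ u w = true ∧ bt σ v w = true then
          dm p u v (ft σ S w) else 0)) ≤ ∑ w ∈ S, (pw p u w * pw p v w) * ((2 * A - 1) / 3) := by
        refine Finset.sum_le_sum fun w hw => ?_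
        have huw : u ≠ w := by
          rintro rfl
          exact hu hw
        have hvw : v ≠ w := by
          rintro rfl
          exact hv hw
        rw [← E_bi2 p huw hvw (fun h => huv h.1) (fun h => huw h.1), ← E_mul_right]
        refine E_mono q0 q1 fun σ => ?_
        by_cases h : bt σ u w = true ∧ bt σ v w = true
        · rw [if_pos h, h.1, h.2, bi_true, one_mul, one_mul]
          exact ih _ (by rw [← hn]; exact ft_card_lt σ hw) _
            (fun h' => hu (ft_subset _ _ _ h')) (fun h' => hv (ft_subset _ _ _ h')) rfl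
        · rw [if_neg h]
          exact mul_nonneg (mul_nonneg (bi_nonneg _) (bi_nonneg _)) hs
      have hfin := final A hA hA0 S hS2 (fun w => pw p u w) (fun w => pw p v w)
        (fun w hw => pw_bounds hp (by rintro rfl; exact hu hw))
        (fun w hw => pw_bounds hp (by rintro rfl; exact hv hw))
      unfold Fn at hfin
      rw [← Finset.sum_mul] at hT
      have h1 : (S.card + 2 : ℝ) * dm p u v S ≤ (S.card + 2) * ((2 * A - 1) / 3) := by
        rw [hrec]
        linarith
      exact le_of_mul_le_mul_left h1 (by positivity)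
    · rcases Nat.eq_zero_or_pos S.card with h0 | h1
      · rw [Finset.card_eq_zero] at h0
        subst h0
        rw [dm_empty]
        exact hs
      · obtain ⟨w, rfl⟩ := Finset.card_eq_one.mp (le_antisymm hS1 h1)
        have huw : u ≠ w := by
          rintro rfl
          simp at hu
        have hvw : v ≠ w := by
          rintro rfl
          simp at hv
        have h2 := dm_one hA hA0 hp u v w huv huw hvw
        have b1 := pw_bounds hp huw
        have b2 := pw_bounds hp hvw
        linarith [b1.2, b2.1]

end Pool.Agent.R4400
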