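import Mathlib
import Pool.Agent.R4400.Main

set_option autoImplicit false
set_option linter.unusedSectionVars false
set_option linter.unusedVariables false

open Finset

namespace Pool.Agent.R4400

variable {n : ℕ}

/-- the probabilities on the ordered pairs -/
noncomputable def PTour.q (T : PTour n) (x : Pair n) : ℝ := T.p x.1.1 x.1.2

lemma prob_eq (T : PTour n) (D : Tour n) : T.prob D = w T.q D := by
  unfold PTour.prob w PTour.q
  refine Finset.prod_congr rfl fun x _ => ?_
  have h := T.add_eq x.1.1 x.1.2 (ne_of_lt x.2)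
  by_cases hx : D x = true
  · rw [if_pos hx, if_pos hx]
  · rw [if_neg hx, if_neg hx]
    linarith

lemma r_eq (T : PTour n) (i : Fin n) : T.r i = E T.q (fun D => rk D Finset.univ i) := by
  unfold PTour.r E
  exact Finset.sum_congr rfl fun D _ => by rw [prob_eq]

/-- the other teams -/
def oth (u v : Fin n) : Finset (Fin n) := (Finset.univ.erase u).erase v

lemma oth_u (u v : Fin n) : u ∉ oth u v := by simp [oth]

lemma oth_v (u v : Fin n) : v ∉ oth u v := by simp [oth]

lemma ins_oth (u v : Fin n) (huv : u ≠ v) : insert u (insert v (oth u v)) = Finset.univ := by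
  unfold oth
  rw [Finset.insert_erase (by simp [huv.symm]), Finset.insert_erase (by simp)]

lemma gain_eq (T T' : PTour n) (u v : Fin n) (huv : u < v) (hadj : PTour.Adjacent u v T T') :
    T'.r u + T'.r v - T.r u - T.r v = (T'.p u v - T.p u v) * dm T.q u v (oth u v) := by
  have hne : u ≠ v := ne_of_lt huv
  set x0 : Pair n := ⟨(u, v), huv⟩ with hx0
  have hq : ∀ j, j ≠ x0 → T'.q j = T.q j := by
    intro j hj
    unfold PTour.q
    refine hadj _ _ (ne_of_lt j.2) ?_ ?_
    · rintro ⟨h1, h2⟩
      exact hj (Subtype.ext (Prod.ext h1 h2))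
    · rintro ⟨h1, h2⟩
      have := j.2
      rw [h1, h2] at this
      exact absurd (lt_trans this huv) (lt_irrefl _)
  set f : Tour n → ℝ := fun D => rk D Finset.univ u + rk D Finset.univ v with hf
  have e1 : T'.r u + T'.r v = E T'.q f := by
    rw [r_eq, r_eq, hf, E_add]
  have e2 : T.r u + T.r v = E T.q f := by
    rw [r_eq, r_eq, hf, E_add]
  have c1 := E_change T.q T'.q x0 hq f
  have c2 := E_change T.q T.q x0 (fun _ _ => rfl) f
  have e3 : E T.q (fun e => f (Function.update e x0 true)) -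
      E T.q (fun e => f (Function.update e x0 false)) = dm T.q u v (oth u v) := by
    rw [← E_sub]
    unfold dm
    congr 1
    funext e
    have b1 : bt (Function.update e x0 true) u v = true := by
      unfold bt
      rw [dif_pos huv, ← hx0, Function.update_self]
    have b2 : bt (Function.update e x0 false) v u = true := by
      rw [bt_swap _ hne]
      unfold bt
      rw [dif_pos huv, ← hx0, Function.update_self]
      rfl
    have hupd : ∀ (b : Bool) (i j : Fin n), ¬ (i = u ∧ j = v) → ¬ (i = v ∧ j = u) →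
        bt (Function.update e x0 b) i j = bt e i j := by
      intro b i j h1 h2
      unfold bt
      rcases lt_trichotomy i j with h | h | h
      · rw [dif_pos h, dif_pos h, Function.update_of_ne]
        intro h3
        have h4 := congrArg Subtype.val h3
        have h5 : i = u := congrArg Prod.fst h4
        have h6 : j = v := congrArg Prod.snd h4
        exact h1 ⟨h5, h6⟩
      · subst h
        simp
      · rw [dif_neg (not_lt.mpr h.le), dif_pos h, dif_neg (not_lt.mpr h.le), dif_pos h,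
          Function.update_of_ne]
        intro h3
        have h4 := congrArg Subtype.val h3
        have h5 : j = u := congrArg Prod.fst h4
        have h6 : i = v := congrArg Prod.snd h4
        exact h2 ⟨h6, h5⟩
    have hsp := dd_spec (Function.update e x0 true) (Function.update e x0 false) u v b1 b2
      (fun i j h1 h2 => by rw [hupd true i j h1 h2, hupd false i j h1 h2]) (oth u v)
      (oth_u u v) (oth_v u v)
    rw [ins_oth u v hne] at hsp
    have hc : dd (Function.update e x0 true) u v (oth u v) = dd e u v (oth u v) := by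
      refine dd_congr _ ?_ ?_ ?_
      · intro x hx
        refine hupd true u x ?_ ?_
        · rintro ⟨_, h⟩
          exact oth_v u v (h ▸ hx)
        · rintro ⟨h, _⟩
          exact hne h
      · intro x hx
        refine hupd true v x ?_ ?_
        · rintro ⟨h, _⟩
          exact hne h.symm
        · rintro ⟨_, h⟩
          exact oth_u u v (h ▸ hx)
      · intro i hi j hj
        refine hupd true i j ?_ ?_
        · rintro ⟨h, _⟩
          exact oth_u u v (h ▸ hi)
        · rintro ⟨h, _⟩
          exact oth_v u v (h ▸ hi)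
    rw [← hc, ← hsp, hf]
    ring
  have hp1 : T'.q x0 = T'.p u v := rfl
  have hp2 : T.q x0 = T.p u v := rfl
  have e4 : T'.r u + T'.r v - T.r u - T.r v = E T'.q f - E T.q f := by
    rw [← e1, ← e2]
    ring
  rw [e4, c1]
  conv_lhs => rw [c2]
  rw [← e3, hp1, hp2]
  ring

lemma q_bounds {ε : ℝ} {T : PTour n} (hT : T.InClass ε) :
    ∀ x, 1 - (1 / 2 + ε) ≤ T.q x ∧ T.q x ≤ 1 / 2 + ε := by
  intro x
  have h := hT x.1.1 x.1.2 (ne_of_lt x.2)
  unfold PTour.q
  constructor <;> linarith [h.1, h.2]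

lemma gain_le_aux {ε : ℝ} (h0 : 0 ≤ ε) (h1 : ε ≤ 1 / 2) (T T' : PTour n) (u v : Fin n)
    (huv : u < v) (hT : T.InClass ε) (hadj : PTour.Adjacent u v T T') :
    T'.r u + T'.r v - T.r u - T.r v ≤ ε / 3 + 2 * ε ^ 2 / 3 := by
  have hne : u ≠ v := ne_of_lt huv
  rw [gain_eq T T' u v huv hadj]
  have b1 := dm_bound (A := 1 / 2 + ε) (p := T.q) (by linarith) (by linarith) (q_bounds hT) u v hne
    (oth u v) (oth_u u v) (oth_v u v)
  have b2 := dm_bound (A := 1 / 2 + ε) (p := T.q) (by linarith) (by linarith) (q_bounds hT) v u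
    hne.symm (oth u v) (oth_v u v) (oth_u u v)
  rw [dm_swap] at b2
  have c1 := hT u v hne
  have c2 := T'.nonneg u v hne
  have c3 := T'.le_one u v hne
  set d := dm T.q u v (oth u v) with hd
  set x := T'.p u v - T.p u v with hx
  have hx1 : |x| ≤ 1 / 2 + ε := by
    rw [abs_le]
    constructor <;> linarith [c1.1, c1.2]
  have hd1 : |d| ≤ 2 * ε / 3 := by
    rw [abs_le]
    constructor <;> linarith
  calc x * d ≤ |x * d| := le_abs_self _
    _ = |x| * |d| := abs_mul _ _
    _ ≤ (1 / 2 + ε) * (2 * ε / 3) := mul_le_mul hx1 hd1 (abs_nonneg _) (by linarith)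
    _ = ε / 3 + 2 * ε ^ 2 / 3 := by ring

theorem gain_le {ε : ℝ} (h0 : 0 ≤ ε) (h1 : ε ≤ 1 / 2) {g : ℝ} (hg : g ∈ gains ε) :
    g ≤ ε / 3 + 2 * ε ^ 2 / 3 := by
  obtain ⟨n, _, T, T', u, v, huv, hT, hadj, rfl⟩ := hg
  rcases lt_or_gt_of_ne huv with h | h
  · exact gain_le_aux h0 h1 T T' u v h hT hadj
  · have h2 := gain_le_aux h0 h1 T T' v u h hT (fun i j hij h3 h4 => hadj i j hij h4 h3)
    linarith

/-- the probabilistic tournament given by the probabilities on the pairs -/
noncomputable def ofQ (q : Pair n → ℝ) (h0 : ∀ x, 0 ≤ q x) (h1 : ∀ x, q x ≤ 1) : PTour n where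
  p := pw q
  nonneg := by
    intro i j hij
    unfold pw
    split_ifs with h h'
    · exact h0 _
    · linarith [h1 ⟨(j, i), h'⟩]
    · exact le_refl _
  le_one := by
    intro i j hij
    unfold pw
    split_ifs with h h'
    · exact h1 _
    · linarith [h0 ⟨(j, i), h'⟩]
    · exact zero_le_one
  add_eq := by
    intro i j hij
    unfold pw
    rcases lt_or_gt_of_ne hij with h | h
    · rw [dif_pos h, dif_neg (not_lt.mpr h.le), dif_pos h]
      ring
    · rw [dif_neg (not_lt.mpr h.le), dif_pos h, dif_pos h]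
      ring

lemma ofQ_q (q : Pair n → ℝ) (h0 : ∀ x, 0 ≤ q x) (h1 : ∀ x, q x ≤ 1) : (ofQ q h0 h1).q = q := by
  funext x
  unfold PTour.q ofQ pw
  simp only
  rw [dif_pos x.2]

theorem gain_attained {ε : ℝ} (h0 : 0 ≤ ε) (h1 : ε ≤ 1 / 2) :
    ε / 3 + 2 * ε ^ 2 / 3 ∈ gains ε := by
  have h01 : (0 : Fin 3) < 1 := by decide
  have h02 : (0 : Fin 3) < 2 := by decide
  have h12 : (1 : Fin 3) < 2 := by decide
  let q : Pair 3 → ℝ := fun x => if x.1 = (0, 2) then 1 / 2 + ε else 1 / 2 - ε
  let q' : Pair 3 → ℝ := fun x => if x.1 = (0, 1) then 1 else q x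
  have hq0 : ∀ x, 0 ≤ q x := by
    intro x
    show 0 ≤ (if x.1 = (0, 2) then 1 / 2 + ε else 1 / 2 - ε)
    split_ifs <;> linarith
  have hq1 : ∀ x, q x ≤ 1 := by
    intro x
    show (if x.1 = (0, 2) then 1 / 2 + ε else 1 / 2 - ε) ≤ 1
    split_ifs <;> linarith
  have hq0' : ∀ x, 0 ≤ q' x := by
    intro x
    show 0 ≤ (if x.1 = (0, 1) then 1 else q x)
    split_ifs
    · linarith
    · exact hq0 x
  have hq1' : ∀ x, q' x ≤ 1 := by
    intro x
    show (if x.1 = (0, 1) then 1 else q x) ≤ 1
    split_ifs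
    · exact le_refl _
    · exact hq1 x
  have hqb : ∀ x, 1 - (1 / 2 + ε) ≤ q x ∧ q x ≤ 1 / 2 + ε := by
    intro x
    show 1 - (1 / 2 + ε) ≤ (if x.1 = (0, 2) then 1 / 2 + ε else 1 / 2 - ε) ∧
      (if x.1 = (0, 2) then 1 / 2 + ε else 1 / 2 - ε) ≤ 1 / 2 + ε
    split_ifs <;> constructor <;> linarith
  have hadj : PTour.Adjacent 0 1 (ofQ q hq0 hq1) (ofQ q' hq0' hq1') := by
    intro i j hij h1 h2
    show pw q' i j = pw q i j
    unfold pw
    split_ifs with h h'
    · show (if (i, j) = (0, 1) then 1 else q ⟨(i, j), h⟩) = q ⟨(i, j), h⟩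
      rw [if_neg]
      intro h3
      exact h1 ⟨congrArg Prod.fst h3, congrArg Prod.snd h3⟩
    · show 1 - (if (j, i) = (0, 1) then 1 else q ⟨(j, i), h'⟩) = 1 - q ⟨(j, i), h'⟩
      rw [if_neg]
      intro h3
      exact h2 ⟨congrArg Prod.snd h3, congrArg Prod.fst h3⟩
    · rfl
  refine ⟨3, by norm_num, ofQ q hq0 hq1, ofQ q' hq0' hq1', 0, 1, by decide, ?_, hadj, ?_⟩
  · intro i j hij
    have h := pw_bounds hqb hij
    show 1 / 2 - ε ≤ pw q i j ∧ pw q i j ≤ 1 / 2 + ε
    constructor <;> linarith [h.1, h.2]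
  · rw [gain_eq _ _ 0 1 h01 hadj, ofQ_q]
    have e1 : oth (0 : Fin 3) 1 = {2} := by decide
    rw [e1]
    have d1 := dm_one (A := 1 / 2 + ε) (p := q) (by linarith) (by linarith) hqb 0 1 2
      (by decide) (by decide) (by decide)
    have d2 := dm_one (A := 1 / 2 + ε) (p := q) (by linarith) (by linarith) hqb 1 0 2
      (by decide) (by decide) (by decide)
    rw [dm_swap] at d2
    have p02 : pw q 0 2 = 1 / 2 + ε := by
      unfold pw
      rw [dif_pos h02]
      show (if ((0 : Fin 3), (2 : Fin 3)) = (0, 2) then 1 / 2 + ε else 1 / 2 - ε) = _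
      rw [if_pos rfl]
    have p12 : pw q 1 2 = 1 / 2 - ε := by
      unfold pw
      rw [dif_pos h12]
      show (if ((1 : Fin 3), (2 : Fin 3)) = (0, 2) then 1 / 2 + ε else 1 / 2 - ε) = _
      rw [if_neg (by decide)]
    have p01 : (ofQ q hq0 hq1).p 0 1 = 1 / 2 - ε := by
      show pw q 0 1 = _
      unfold pw
      rw [dif_pos h01]
      show (if ((0 : Fin 3), (1 : Fin 3)) = (0, 2) then 1 / 2 + ε else 1 / 2 - ε) = _
      rw [if_neg (by decide)]
    have p01' : (ofQ q' hq0' hq1').p 0 1 = 1 := by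
      show pw q' 0 1 = _
      unfold pw
      rw [dif_pos h01]
      show (if ((0 : Fin 3), (1 : Fin 3)) = (0, 1) then 1 else q ⟨(0, 1), h01⟩) = _
      rw [if_pos rfl]
    have d3 : dm q 0 1 {2} = 2 * ε / 3 := by
      rw [p02, p12] at d1 d2
      linarith
    rw [p01, p01', d3]
    ring

end Pool.Agent.R4400
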